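import Pool.Statements.S00478
-- import your own Pool.Agent.* helpers here
import Pool.Agent.helper75.EM.Exact
import Pool.Agent.helper75.EM.Transfer

set_option autoImplicit false
open Pool Pool.MP_d965d2_ag

namespace Pool.Agent.S00478

/-- The negation of the preceding statement: For a char-0 field K, the localization R of K[x_1..x_n] at any prime, and any proper radical ideal I of R: if s·r ∈ I² for some s outside each minimal prime of I (i.e. r ∈ I^(2)), then r ∈ m·I, m the maximal ideal. -/
theorem result :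
    ¬ (∀ (K : Type) [Field K] [CharZero K] (n : ℕ)
      (p : Ideal (MvPolynomial (Fin n) K)) [p.IsPrime]
      (I : Ideal (Localization.AtPrime p)),
      I.IsRadical → I ≠ ⊤ →
      ∀ r : Localization.AtPrime p,
        (∀ P ∈ I.minimalPrimes, ∃ s : Localization.AtPrime p, s ∉ P ∧ s * r ∈ I ^ 2) →
        r ∈ IsLocalRing.maximalIdeal (Localization.AtPrime p) * I) := by
  intro H
  obtain ⟨γ, b, f, hle, hb, hb', hf, hn⟩ := Pool.Agent.helper75.EM.poly_data
  have hp : (Pool.Agent.helper75.EM.p0).IsPrime := RingHom.ker_isPrime _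
  have : Nonempty Pool.Agent.helper75.EM.Γ := ⟨⟨{0, 1, 2, 4}, by decide, by decide⟩⟩
  obtain ⟨I, r, h1, h2, h3, h4⟩ := Pool.Agent.helper75.EM.transfer
    Pool.Agent.helper75.EM.p0 (fun T => Pool.Agent.helper75.EM.K (γ T))
    (fun T => RingHom.ker_isPrime _) hle b hb hb' f hf hn
  exact h4 (H ℚ 9 Pool.Agent.helper75.EM.p0 I h1 h2 r h3)

end Pool.Agent.S00478
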