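import Pool.Statements.S00577
import Pool.Agent.AQB.AmenProd
import Pool.Agent.AQB.OfProduct
import Pool.Agent.AQB.PartCMain

set_option autoImplicit false
universe u
open Pool Pool.MP_00fcbb_al

namespace Pool.Agent.S00577

/-- If a group G equals AB, where each of the subgroups A and B contains an abelian subgroup of finite index in itself, then G has a soluble subgroup of finite index. -/
theorem result :
    ∀ (G : Type u) [Group G] (A B : Subgroup G),
      (∀ g : G, ∃ a ∈ A, ∃ b ∈ B, g = a * b) →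
      (∃ H : Subgroup G, H ≤ A ∧ (H.subgroupOf A).FiniteIndex ∧
          ∀ x ∈ H, ∀ y ∈ H, x * y = y * x) →
      (∃ K : Subgroup G, K ≤ B ∧ (K.subgroupOf B).FiniteIndex ∧
          ∀ x ∈ K, ∀ y ∈ K, x * y = y * x) →
      ∃ S : Subgroup G, S.FiniteIndex ∧ IsSolvable S := by
  intro G _ A B hAB hA hB
  have hG : Pool.Agent.AQB.Amen G := Pool.Agent.AQB.amen_of_product hAB hA hB
  obtain ⟨H, hHA, fH, cH⟩ := hA
  obtain ⟨K, hKB, fK, cK⟩ := hB
  obtain ⟨S⟩ := Pool.Agent.AQB.dc_of_product A B H K hAB fH cH fK cK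
  exact Pool.Agent.AQB.virtSol_of_amen G S hG

end Pool.Agent.S00577
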