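import Pool.Statements.S00732
import Pool.Agent.helper17.Tilt.Fin

set_option autoImplicit false
universe u
open CategoryTheory
open Pool Pool.MP_0f1560_al

namespace Pool.Agent.S00732

/-- The negation of the preceding statement: Over an Artin algebra Λ, a finitely generated module T with no higher self-extensions, finite projective dimension, and as many indecomposable summand types as Λ admits an exact sequence 0 → Λ → T0 → … → Tm → 0 with each Ti a summand of a finite power of T. -/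
theorem result :
    ¬ (∀ (R : Type u) [CommRing R] [IsArtinianRing R] (Λ : Type u) [Ring Λ] [Algebra R Λ]
    [Module.Finite R Λ] [CategoryTheory.HasExt.{u} (ModuleCat.{u} Λ)] (T : ModuleCat.{u} Λ),
    Module.Finite Λ T →
    (∀ i : ℕ, 1 ≤ i → Subsingleton (CategoryTheory.Abelian.Ext.{u} T T i)) →
    (∃ n : ℕ, ∀ i : ℕ, n < i → ∀ Y : ModuleCat.{u} Λ,
      Subsingleton (CategoryTheory.Abelian.Ext.{u} T Y i)) →
    Nat.card (Quot (fun (N M : {N : Submodule Λ T // N ≠ ⊥ ∧ (∃ N' : Submodule Λ T, IsCompl N N') ∧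
        ∀ A B : Submodule Λ T, A ⊔ B = N → A ⊓ B = ⊥ → A = ⊥ ∨ B = ⊥}) =>
          Nonempty (N.1 ≃ₗ[Λ] M.1)))
      = Nat.card (Quot (fun (N M : {N : Submodule Λ Λ // N ≠ ⊥ ∧ (∃ N' : Submodule Λ Λ, IsCompl N N') ∧
        ∀ A B : Submodule Λ Λ, A ⊔ B = N → A ⊓ B = ⊥ → A = ⊥ ∨ B = ⊥}) =>
          Nonempty (N.1 ≃ₗ[Λ] M.1))) →
    ∃ (m : ℕ) (X : CategoryTheory.ComposableArrows (ModuleCat.{u} Λ) (m + 4)),
      X.Exact ∧ CategoryTheory.Limits.IsZero (X.obj 0) ∧
      CategoryTheory.Limits.IsZero (X.obj (Fin.last (m + 4))) ∧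
      Nonempty (X.obj 1 ≅ ModuleCat.of Λ Λ) ∧
      ∀ i : Fin (m + 5), 2 ≤ i.val → i.val ≤ m + 3 →
        ∃ (k : ℕ) (f : X.obj i ⟶ ModuleCat.of Λ (Fin k → (T : Type u)))
          (g : ModuleCat.of Λ (Fin k → (T : Type u)) ⟶ X.obj i), f ≫ g = 𝟙 (X.obj i)) := by
  intro H
  refine Pool.Agent.helper17.Tilt.counterF2.{u} ?_
  intro T h1 h2 h3 h4
  exact H Pool.Agent.helper17.Tilt.F2.{u} Pool.Agent.helper17.Tilt.GG.{u} T h1 h2 h3 h4

end Pool.Agent.S00732
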