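import Pool.Statements.S01016
-- import your own Pool.Agent.* helpers here

set_option autoImplicit false
open Pool Pool.MP_295d35_al

namespace Pool.Agent.S01016

/-!
The counterexample family (embedding dimension 8).  For `p ≥ 2`, `q = p + 1`, `n = p³ + q³` let
`Γ = ⟨ n + ε₁ p² + ε₂ p q + ε₃ q² : εᵢ ∈ {0,1} ⟩`.  Its elements are the numbers
`s n + φ(u,v,w)` with `0 ≤ u,v,w ≤ s`, `φ(u,v,w) = u p² + v p q + w q²`.
The residues mod `n` are tiled by the two boxes `φ([0,p]³)` and `W - φ([0,p-1]³)` (tiling of space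
by cubes of sides `q` and `p`), which makes `Γ` symmetric, while for `0 ≤ c ≤ p` the monomial
`x₁₀₀^(q-c) x₁₀₁^c` is an isolated factorization of a Betti element, so that at least `p + 1`
relations are needed.
-/
/-- the quadratic-type form `x p² + y p q + z q²` with `q = p+1` -/
def phi (p x y z : ℤ) : ℤ := x * p ^ 2 + y * (p * (p + 1)) + z * (p + 1) ^ 2

def nn (p : ℤ) : ℤ := p ^ 3 + (p + 1) ^ 3

theorem lattice (p x y z g : ℤ) (hp : 1 ≤ p) (h : phi p x y z = g * nn p) :
    ∃ α β : ℤ, x = α * (p + 1) + g * p ∧ y = -α * p + β * (p + 1) ∧ z = -β * p + g * (p + 1) := by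
  have h0 : (x - g * p) * p ^ 2 + y * (p * (p + 1)) + (z - g * (p + 1)) * (p + 1) ^ 2 = 0 := by
    unfold phi nn at h
    linear_combination h
  have hcop : IsCoprime (p + 1) p := ⟨1, -1, by ring⟩
  have hx : (p + 1) ∣ (x - g * p) := by
    have : (p + 1) ∣ (x - g * p) * p ^ 2 := by
      refine ⟨-(y * p + (z - g * (p + 1)) * (p + 1)), ?_⟩
      linear_combination h0
    exact (hcop.pow_right (n := 2)).dvd_of_dvd_mul_right this
  have hz : p ∣ (z - g * (p + 1)) := by
    have : p ∣ (z - g * (p + 1)) * (p + 1) ^ 2 := by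
      refine ⟨-((x - g * p) * p + y * (p + 1)), ?_⟩
      linear_combination h0
    exact (hcop.symm.pow_right (n := 2)).dvd_of_dvd_mul_right this
  obtain ⟨α, hα⟩ := hx
  obtain ⟨β, hβ⟩ := hz
  refine ⟨α, -β, ?_, ?_, ?_⟩
  · linear_combination hα
  · rw [hα, hβ] at h0
    have hpq : p * (p + 1) ≠ 0 := by positivity
    have : p * (p + 1) * (α * p + y + β * (p + 1)) = 0 := by linear_combination h0
    have := (mul_eq_zero.mp this).resolve_left hpq
    linear_combination this
  · linear_combination hβ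

/-- uniqueness of `p n + φ(p,0,c)` -/
theorem uniq (p c s u v w : ℤ) (hp : 1 ≤ p) (hc0 : 0 ≤ c) (hc : c ≤ p)
    (hu0 : 0 ≤ u) (hu : u ≤ s) (hv0 : 0 ≤ v) (hv : v ≤ s) (hw0 : 0 ≤ w) (hw : w ≤ s)
    (h : s * nn p + phi p u v w = p * nn p + phi p p 0 c) :
    s = p ∧ u = p ∧ v = 0 ∧ w = c := by
  obtain ⟨α, β, h1, h2, h3⟩ := lattice p (u - p) v (w - c) (p - s) hp (by
    unfold phi at h ⊢; linear_combination h)
  obtain ⟨g, hg⟩ : ∃ g : ℤ, g = p - s := ⟨_, rfl⟩
  rw [← hg] at h1 h3
  have hs : s = p - g := by linarith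
  subst hs
  -- α + g ≤ 0
  have hag : α + g ≤ 0 := by
    by_contra hcon
    push Not at hcon
    have : (α + g) * (p + 1) ≤ 0 := by nlinarith
    nlinarith
  rcases lt_trichotomy g 0 with hg0 | hg0 | hg0
  · -- g ≤ -1
    exfalso
    have hβ : β * p < 0 := by nlinarith
    have hβ' : β < 0 := by
      by_contra hcon; push Not at hcon
      nlinarith
    have hα : α * p < 0 := by nlinarith
    have hα' : α < 0 := by
      by_contra hcon; push Not at hcon
      nlinarith
    nlinarith
  · subst hg0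
    have hα : α = 0 := by
      have : -1 < α := by
        by_contra hcon; push Not at hcon
        nlinarith
      linarith
    subst hα
    have hβ : β = 0 := by
      have h4 : -1 < β := by
        by_contra hcon; push Not at hcon
        nlinarith
      have h5 : β < 1 := by
        by_contra hcon; push Not at hcon
        nlinarith
      linarith
    subst hβ
    refine ⟨by linarith, by linarith, by linarith, by linarith⟩
  · exfalso
    have hα : α ≤ -g := by linarith
    have hβ : β + g ≤ 0 := by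
      by_contra hcon
      push Not at hcon
      nlinarith
    nlinarith

/-- the Frobenius number is not in the semigroup -/
theorem notF (p s u v w : ℤ) (hp : 1 ≤ p)
    (hu0 : 0 ≤ u) (hu : u ≤ s) (hv0 : 0 ≤ v) (hv : v ≤ s) (hw0 : 0 ≤ w) (hw : w ≤ s)
    (h : s * nn p + phi p u v w = (2 * p - 1) * nn p + phi p (2 * p) p p) : False := by
  obtain ⟨α, β, h1, h2, h3⟩ := lattice p (u - 2 * p) (v - p) (w - p) (2 * p - 1 - s) hp (by
    unfold phi at h ⊢; linear_combination h)
  obtain ⟨g, hg⟩ : ∃ g : ℤ, g = 2 * p - 1 - s := ⟨_, rfl⟩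
  rw [← hg] at h1 h3
  have hs : s = 2 * p - 1 - g := by linarith
  subst hs
  have hag : α + g ≤ -1 := by
    by_contra hcon
    push Not at hcon
    have : 0 ≤ (α + g) * (p + 1) := by nlinarith
    nlinarith
  have hbg : β + g ≤ -1 := by
    by_contra hcon
    push Not at hcon
    have : 0 ≤ (β + g) * (p + 1) := by nlinarith
    nlinarith
  have hg1 : g ≤ -1 := by
    by_contra hcon
    push Not at hcon
    nlinarith
  have hg2 : -2 < g := by
    by_contra hcon
    push Not at hcon
    have key : -g * nn p ≤ phi p (2 * p) p p := by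
      have : phi p (u - 2 * p) (v - p) (w - p) = g * nn p := by
        unfold phi at h ⊢; linear_combination h
      have h4 : 0 ≤ phi p u v w := by unfold phi; positivity
      unfold phi at this h4 ⊢
      nlinarith
    have : phi p (2 * p) p p < 2 * nn p := by unfold phi nn; nlinarith
    have hn : 0 < nn p := by unfold nn; positivity
    nlinarith
  have hg3 : g = -1 := by linarith
  subst hg3
  have hβ : β * p < 0 := by nlinarith
  have hβ' : β < 0 := by
    by_contra hcon; push Not at hcon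
    nlinarith
  have hα : α * p < 0 := by nlinarith
  have hα' : α < 0 := by
    by_contra hcon; push Not at hcon
    nlinarith
  nlinarith

/-- no collision of the two boxes -/
theorem noCross (p u v w g : ℤ) (hp : 1 ≤ p)
    (hu0 : 0 ≤ u) (hu : u ≤ 2 * p - 1) (hv0 : 0 ≤ v) (hv : v ≤ 2 * p - 1) (hw0 : 0 ≤ w)
    (hw : w ≤ 2 * p - 1)
    (h : phi p u v w = phi p (2 * p) p p + g * nn p) : False := by
  obtain ⟨α, β, h1, h2, h3⟩ := lattice p (u - 2 * p) (v - p) (w - p) g hp (by
    unfold phi at h ⊢; linear_combination h)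
  have hn : 0 < nn p := by unfold nn; positivity
  have hg1 : g < 1 := by
    by_contra hcon
    push Not at hcon
    have h4 : phi p u v w ≤ phi p (2 * p - 1) (2 * p - 1) (2 * p - 1) := by
      unfold phi
      have := mul_le_mul_of_nonneg_right hu (sq_nonneg p)
      have := mul_le_mul_of_nonneg_right hv (by positivity : 0 ≤ p * (p + 1))
      have := mul_le_mul_of_nonneg_right hw (sq_nonneg (p + 1))
      linarith
    have h5 : phi p (2 * p - 1) (2 * p - 1) (2 * p - 1) < phi p (2 * p) p p + nn p := by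
      unfold phi nn; nlinarith
    nlinarith
  have hg2 : -2 < g := by
    by_contra hcon
    push Not at hcon
    have h4 : 0 ≤ phi p u v w := by unfold phi; positivity
    have : phi p (2 * p) p p < 2 * nn p := by unfold phi nn; nlinarith
    nlinarith
  have : g = 0 ∨ g = -1 := by omega
  rcases this with rfl | rfl
  · have hα : α < 0 := by
      by_contra hcon; push Not at hcon
      nlinarith
    have hβ : β < 0 := by
      by_contra hcon; push Not at hcon
      nlinarith
    nlinarith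
  · have hα : α = 0 := by
      have : α < 1 := by
        by_contra hcon; push Not at hcon
        nlinarith
      have : -1 < α := by
        by_contra hcon; push Not at hcon
        nlinarith
      linarith
    subst hα
    have hβ : β = 0 := by
      have : β < 1 := by
        by_contra hcon; push Not at hcon
        nlinarith
      have : -1 < β := by
        by_contra hcon; push Not at hcon
        nlinarith
      linarith
    subst hβ
    nlinarith

/-- injectivity on the box `[0,p]^3` -/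
theorem inj (p u v w g : ℤ) (hp : 1 ≤ p)
    (hu0 : -p ≤ u) (hu : u ≤ p) (hv0 : -p ≤ v) (hv : v ≤ p) (hw0 : -p ≤ w) (hw : w ≤ p)
    (h : phi p u v w = g * nn p) : u = 0 ∧ v = 0 ∧ w = 0 := by
  obtain ⟨α, β, h1, h2, h3⟩ := lattice p u v w g hp h
  rcases lt_trichotomy g 0 with hg0 | hg0 | hg0
  · exfalso
    have hβ : β < 0 := by
      by_contra hcon; push Not at hcon
      nlinarith
    have hα : α < 0 := by
      by_contra hcon; push Not at hcon
      nlinarith
    nlinarith
  · subst hg0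
    have hα : α = 0 := by
      have : α < 1 := by
        by_contra hcon; push Not at hcon
        nlinarith
      have : -1 < α := by
        by_contra hcon; push Not at hcon
        nlinarith
      linarith
    subst hα
    have hβ : β = 0 := by
      have : β < 1 := by
        by_contra hcon; push Not at hcon
        nlinarith
      have : -1 < β := by
        by_contra hcon; push Not at hcon
        nlinarith
      linarith
    subst hβ
    refine ⟨by linarith, by linarith, by linarith⟩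
  · exfalso
    have hβ : 0 < β := by
      by_contra hcon; push Not at hcon
      nlinarith
    have hα : 0 < α := by
      by_contra hcon; push Not at hcon
      nlinarith
    nlinarith

def G (p z : ℤ) : Prop :=
  ∃ s u v w : ℤ, 0 ≤ u ∧ u ≤ s ∧ 0 ≤ v ∧ v ≤ s ∧ 0 ≤ w ∧ w ≤ s ∧ z = s * nn p + phi p u v w

/-- the Frobenius number -/
def FF (p : ℤ) : ℤ := (2 * p - 1) * nn p + phi p (2 * p) p p

theorem G_add (p z z' : ℤ) (h : G p z) (h' : G p z') : G p (z + z') := by
  obtain ⟨s, u, v, w, h1, h2, h3, h4, h5, h6, h7⟩ := h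
  obtain ⟨s', u', v', w', h1', h2', h3', h4', h5', h6', h7'⟩ := h'
  refine ⟨s + s', u + u', v + v', w + w', by linarith, by linarith, by linarith, by linarith,
    by linarith, by linarith, ?_⟩
  rw [h7, h7']; unfold phi; ring

theorem G_mul (p z t : ℤ) (ht : 0 ≤ t) (h : G p z) : G p (z + t * nn p) := by
  obtain ⟨s, u, v, w, h1, h2, h3, h4, h5, h6, h7⟩ := h
  refine ⟨s + t, u, v, w, by linarith, by linarith, by linarith, by linarith,
    by linarith, by linarith, ?_⟩
  rw [h7]; unfold phi; ring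

theorem compl (p u v w : ℤ)
    (hu0 : 0 ≤ u) (hu : u ≤ p) (hv0 : 0 ≤ v) (hv : v ≤ p) (hw0 : 0 ≤ w) (hw : w ≤ p) :
    ∃ m : ℤ, u ≤ m ∧ v ≤ m ∧ w ≤ m ∧ 0 ≤ m ∧ m ≤ p ∧
      G p (FF p + nn p - (m * nn p + phi p u v w)) := by
  by_cases h1 : v ≤ u ∧ w ≤ u
  · refine ⟨u, le_refl _, h1.1, h1.2, hu0, hu, 2 * p - u, 2 * p - u, p - v, p - w,
      by linarith, by linarith, by linarith, by linarith, by linarith, by linarith, ?_⟩
    unfold FF phi; ring
  · by_cases h2 : w ≤ v
    · have h3 : u < v := by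
        by_contra hcon; push Not at hcon
        exact h1 ⟨hcon, h2.trans hcon⟩
      refine ⟨v, h3.le, le_refl _, h2, hv0, hv, 2 * p - v, p - 1 - u, 2 * p - v, p - w,
        by linarith, by linarith, by linarith, by linarith, by linarith, by linarith, ?_⟩
      unfold FF phi; ring
    · push Not at h2
      have h3 : u < w := by
        by_contra hcon; push Not at hcon
        exact h1 ⟨h2.le.trans hcon, hcon⟩
      refine ⟨w, h3.le, h2.le, le_refl _, hw0, hw, 2 * p - w, p - 1 - u, p - 1 - v, 2 * p - w,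
        by linarith, by linarith, by linarith, by linarith, by linarith, by linarith, ?_⟩
      unfold FF phi; ring

theorem cover (P : ℕ) (hP : 1 ≤ P) (z : ℤ) :
    (∃ u v w t : ℤ, 0 ≤ u ∧ u ≤ P ∧ 0 ≤ v ∧ v ≤ P ∧ 0 ≤ w ∧ w ≤ P ∧
      z = phi P u v w + t * nn P) ∨
    (∃ u v w t : ℤ, 0 ≤ u ∧ u ≤ P ∧ 0 ≤ v ∧ v ≤ P ∧ 0 ≤ w ∧ w ≤ P ∧
      z = phi P (2 * P) P P - phi P u v w + t * nn P) := by
  obtain ⟨n, hn⟩ : ∃ n : ℕ, n = (P + 1) ^ 3 + P ^ 3 := ⟨_, rfl⟩
  have hnn : (n : ℤ) = nn P := by rw [hn]; unfold nn; push_cast; ring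
  have hP' : (1 : ℤ) ≤ P := by exact_mod_cast hP
  have : NeZero n := ⟨by rw [hn]; positivity⟩
  let f : (Fin (P + 1) × Fin (P + 1) × Fin (P + 1)) ⊕ (Fin P × Fin P × Fin P) → ZMod n :=
    Sum.elim (fun x => ((phi P (x.1 : ℕ) (x.2.1 : ℕ) (x.2.2 : ℕ) : ℤ) : ZMod n))
      (fun x => ((phi P (2 * P) P P - phi P (x.1 : ℕ) (x.2.1 : ℕ) (x.2.2 : ℕ) : ℤ) : ZMod n))
  have hinj : Function.Injective f := by
    have key1 : ∀ (u v w u' v' w' : ℕ), u ≤ P → v ≤ P → w ≤ P → u' ≤ P → v' ≤ P → w' ≤ P →
        ((n : ℤ) ∣ phi P u' v' w' - phi P u v w) → u = u' ∧ v = v' ∧ w = w' := by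
      intro u v w u' v' w' h1 h2 h3 h1' h2' h3' hd
      obtain ⟨g, hg⟩ := hd
      rw [hnn] at hg
      have := inj P (u' - u) (v' - v) (w' - w) g hP' (by linarith) (by linarith) (by linarith)
        (by linarith) (by linarith) (by linarith) (by unfold phi at hg ⊢; linear_combination hg)
      refine ⟨by omega, by omega, by omega⟩
    have key2 : ∀ (u v w u' v' w' : ℕ), u ≤ P → v ≤ P → w ≤ P → u' < P → v' < P → w' < P →
        ((n : ℤ) ∣ (phi P (2 * P) P P - phi P u' v' w') - phi P u v w) → False := by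
      intro u v w u' v' w' h1 h2 h3 h1' h2' h3' hd
      obtain ⟨g, hg⟩ := hd
      rw [hnn] at hg
      refine noCross P (u + u') (v + v') (w + w') (-g) hP' (by positivity) (by omega)
        (by positivity) (by omega) (by positivity) (by omega) ?_
      unfold phi at hg ⊢; linear_combination -hg
    intro x y hxy
    rcases x with ⟨u, v, w⟩ | ⟨u, v, w⟩ <;> rcases y with ⟨u', v', w'⟩ | ⟨u', v', w'⟩
    · simp only [f, Sum.elim_inl] at hxy
      rw [ZMod.intCast_eq_intCast_iff_dvd_sub] at hxy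
      have := key1 u v w u' v' w' (by omega) (by omega) (by omega) (by omega) (by omega) (by omega)
        hxy
      rw [Sum.inl.injEq, Prod.mk.injEq, Prod.mk.injEq]
      exact ⟨Fin.ext this.1, Fin.ext this.2.1, Fin.ext this.2.2⟩
    · exfalso
      simp only [f, Sum.elim_inl, Sum.elim_inr] at hxy
      rw [ZMod.intCast_eq_intCast_iff_dvd_sub] at hxy
      exact key2 u v w u' v' w' (by omega) (by omega) (by omega) (by omega) (by omega) (by omega)
        hxy
    · exfalso
      simp only [f, Sum.elim_inl, Sum.elim_inr] at hxy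
      have hxy := hxy.symm
      rw [ZMod.intCast_eq_intCast_iff_dvd_sub] at hxy
      exact key2 u' v' w' u v w (by omega) (by omega) (by omega) (by omega) (by omega) (by omega)
        hxy
    · simp only [f, Sum.elim_inr] at hxy
      rw [ZMod.intCast_eq_intCast_iff_dvd_sub] at hxy
      have := key1 u' v' w' u v w (by omega) (by omega) (by omega) (by omega) (by omega) (by omega)
        (by
          have h : phi P (2 * P) P P - phi P (u' : ℕ) (v' : ℕ) (w' : ℕ) -
            (phi P (2 * P) P P - phi P (u : ℕ) (v : ℕ) (w : ℕ)) =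
            phi P (u : ℕ) (v : ℕ) (w : ℕ) - phi P (u' : ℕ) (v' : ℕ) (w' : ℕ) := by ring
          rw [h] at hxy; exact hxy)
      rw [Sum.inr.injEq, Prod.mk.injEq, Prod.mk.injEq]
      exact ⟨Fin.ext this.1.symm, Fin.ext this.2.1.symm, Fin.ext this.2.2.symm⟩
  have hsurj : Function.Surjective f := by
    have hb : Function.Bijective f := by
      rw [Fintype.bijective_iff_injective_and_card]
      refine ⟨hinj, ?_⟩
      rw [ZMod.card]
      simp only [Fintype.card_sum, Fintype.card_prod, Fintype.card_fin]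
      rw [hn]; ring
    exact hb.2
  obtain ⟨x, hx⟩ := hsurj (z : ZMod n)
  rcases x with ⟨u, v, w⟩ | ⟨u, v, w⟩
  · left
    simp only [f, Sum.elim_inl] at hx
    rw [ZMod.intCast_eq_intCast_iff_dvd_sub] at hx
    obtain ⟨t, ht⟩ := hx
    rw [hnn] at ht
    refine ⟨(u : ℕ), (v : ℕ), (w : ℕ), t, by positivity, by omega, by positivity, by omega,
      by positivity, by omega, by linear_combination ht⟩
  · right
    simp only [f, Sum.elim_inr] at hx
    rw [ZMod.intCast_eq_intCast_iff_dvd_sub] at hx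
    obtain ⟨t, ht⟩ := hx
    rw [hnn] at ht
    refine ⟨(u : ℕ), (v : ℕ), (w : ℕ), t, by positivity, by omega, by positivity, by omega,
      by positivity, by omega, by linear_combination ht⟩

theorem symm_or (P : ℕ) (hP : 1 ≤ P) (z : ℤ) : G P z ∨ G P (FF P - z) := by
  rcases cover P hP z with ⟨u, v, w, t, h1, h2, h3, h4, h5, h6, hz⟩ |
    ⟨u, v, w, t, h1, h2, h3, h4, h5, h6, hz⟩
  · obtain ⟨m, m1, m2, m3, m4, m5, hm⟩ := compl P u v w h1 h2 h3 h4 h5 h6
    by_cases ht : m ≤ t
    · left
      refine ⟨t, u, v, w, h1, by linarith, h3, by linarith, h5, by linarith, by rw [hz]; ring⟩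
    · right
      push Not at ht
      have := G_mul P _ (m - 1 - t) (by linarith) hm
      convert this using 1
      rw [hz]; ring
  · obtain ⟨m, m1, m2, m3, m4, m5, hm⟩ := compl P u v w h1 h2 h3 h4 h5 h6
    by_cases ht : 0 ≤ t - 2 * P + m
    · left
      have := G_mul P _ _ ht hm
      convert this using 1
      rw [hz]; unfold FF; ring
    · right
      push Not at ht
      refine ⟨2 * P - 1 - t, u, v, w, h1, by linarith, h3, by linarith, h5, by linarith, ?_⟩
      rw [hz]; unfold FF; ring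

theorem symm_iff (P : ℕ) (hP : 1 ≤ P) (z : ℤ) : G P z ↔ ¬ G P (FF P - z) := by
  have hP' : (1 : ℤ) ≤ P := by exact_mod_cast hP
  constructor
  · intro h h'
    have := G_add P _ _ h h'
    obtain ⟨s, u, v, w, h1, h2, h3, h4, h5, h6, h7⟩ := this
    exact notF P s u v w hP' h1 h2 h3 h4 h5 h6 (by
      rw [← h7]; unfold FF; ring)
  · intro h
    exact (symm_or P hP z).resolve_right h

/-- the eight generators -/
def aa (P : ℕ) : Fin 8 → ℕ :=
  ![P ^ 3 + (P + 1) ^ 3,
    P ^ 3 + (P + 1) ^ 3 + (P + 1) ^ 2,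
    P ^ 3 + (P + 1) ^ 3 + P * (P + 1),
    P ^ 3 + (P + 1) ^ 3 + P * (P + 1) + (P + 1) ^ 2,
    P ^ 3 + (P + 1) ^ 3 + P ^ 2,
    P ^ 3 + (P + 1) ^ 3 + P ^ 2 + (P + 1) ^ 2,
    P ^ 3 + (P + 1) ^ 3 + P ^ 2 + P * (P + 1),
    P ^ 3 + (P + 1) ^ 3 + P ^ 2 + P * (P + 1) + (P + 1) ^ 2]

theorem sum_aa (P : ℕ) (c : Fin 8 → ℕ) :
    ((∑ j, c j * aa P j : ℕ) : ℤ) =
      ((c 0 + c 1 + c 2 + c 3 + c 4 + c 5 + c 6 + c 7 : ℕ) : ℤ) * nn P +
      phi P ((c 4 + c 5 + c 6 + c 7 : ℕ) : ℤ) ((c 2 + c 3 + c 6 + c 7 : ℕ) : ℤ)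
        ((c 1 + c 3 + c 5 + c 7 : ℕ) : ℤ) := by
  simp only [Fin.sum_univ_eight, aa, nn, phi]
  simp
  ring

theorem exists_c (P : ℕ) : ∀ s u v w : ℕ, u ≤ s → v ≤ s → w ≤ s → ∃ c : Fin 8 → ℕ,
    ∑ j, c j * aa P j = s * (P ^ 3 + (P + 1) ^ 3) + u * P ^ 2 + v * (P * (P + 1)) +
      w * (P + 1) ^ 2 := by
  intro s
  induction s with
  | zero =>
    intro u v w hu hv hw
    refine ⟨0, ?_⟩
    have : u = 0 := by omega
    have : v = 0 := by omega
    have : w = 0 := by omega
    subst_vars; simp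
  | succ s ih =>
    intro u v w hu hv hw
    have key : ∀ (i : Fin 8) (u' v' w' : ℕ), u' ≤ s → v' ≤ s → w' ≤ s → ∃ c : Fin 8 → ℕ,
        ∑ j, c j * aa P j = (s * (P ^ 3 + (P + 1) ^ 3) + u' * P ^ 2 + v' * (P * (P + 1)) +
        w' * (P + 1) ^ 2) + aa P i := by
      intro i u' v' w' h1 h2 h3
      obtain ⟨c, hc⟩ := ih u' v' w' h1 h2 h3
      refine ⟨fun j => c j + if j = i then 1 else 0, ?_⟩
      simp [add_mul, Finset.sum_add_distrib, ite_mul, hc]
    rcases u with _ | u <;> rcases v with _ | v <;> rcases w with _ | w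
    · obtain ⟨c, hc⟩ := key 0 0 0 0 (by omega) (by omega) (by omega)
      exact ⟨c, by rw [hc]; simp [aa]; ring⟩
    · obtain ⟨c, hc⟩ := key 1 0 0 w (by omega) (by omega) (by omega)
      exact ⟨c, by rw [hc]; simp [aa]; ring⟩
    · obtain ⟨c, hc⟩ := key 2 0 v 0 (by omega) (by omega) (by omega)
      exact ⟨c, by rw [hc]; simp [aa]; ring⟩
    · obtain ⟨c, hc⟩ := key 3 0 v w (by omega) (by omega) (by omega)
      exact ⟨c, by rw [hc]; simp [aa]; ring⟩
    · obtain ⟨c, hc⟩ := key 4 u 0 0 (by omega) (by omega) (by omega)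
      exact ⟨c, by rw [hc]; simp [aa]; ring⟩
    · obtain ⟨c, hc⟩ := key 5 u 0 w (by omega) (by omega) (by omega)
      exact ⟨c, by rw [hc]; simp [aa]; ring⟩
    · obtain ⟨c, hc⟩ := key 6 u v 0 (by omega) (by omega) (by omega)
      exact ⟨c, by rw [hc]; simp [aa]; ring⟩
    · obtain ⟨c, hc⟩ := key 7 u v w (by omega) (by omega) (by omega)
      exact ⟨c, by rw [hc]; simp [aa]; ring⟩

theorem mem_iff (P : ℕ) (z : ℤ) :
    (∃ c : Fin 8 → ℕ, ((∑ j, c j * aa P j : ℕ) : ℤ) = z) ↔ G P z := by
  constructor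
  · rintro ⟨c, hc⟩
    rw [sum_aa] at hc
    exact ⟨((c 0 + c 1 + c 2 + c 3 + c 4 + c 5 + c 6 + c 7 : ℕ) : ℤ),
      ((c 4 + c 5 + c 6 + c 7 : ℕ) : ℤ), ((c 2 + c 3 + c 6 + c 7 : ℕ) : ℤ),
      ((c 1 + c 3 + c 5 + c 7 : ℕ) : ℤ), by omega, by omega, by omega, by omega, by omega,
      by omega, hc.symm⟩
  · rintro ⟨s, u, v, w, h1, h2, h3, h4, h5, h6, h7⟩
    obtain ⟨u, rfl⟩ := Int.eq_ofNat_of_zero_le h1
    obtain ⟨v, rfl⟩ := Int.eq_ofNat_of_zero_le h3
    obtain ⟨w, rfl⟩ := Int.eq_ofNat_of_zero_le h5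
    obtain ⟨s, rfl⟩ := Int.eq_ofNat_of_zero_le (h1.trans h2)
    obtain ⟨c, hc⟩ := exists_c P s u v w (by omega) (by omega) (by omega)
    refine ⟨c, ?_⟩
    rw [hc, h7]
    unfold nn phi
    push_cast
    ring

theorem gcd_aa (P : ℕ) : Finset.univ.gcd (aa P) = 1 := by
  have h : ∀ i, Finset.univ.gcd (aa P) ∣ aa P i := fun i => Finset.gcd_dvd (Finset.mem_univ i)
  have h0 := h 0
  have h1 := h 1
  have h4 := h 4
  simp only [aa] at h0 h1 h4
  simp at h0 h1 h4
  rw [Nat.dvd_add_right h0] at h1 h4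
  have hc : Nat.Coprime (P ^ 2) ((P + 1) ^ 2) := by
    apply Nat.Coprime.pow
    simp
  exact Nat.eq_one_of_dvd_coprimes hc h4 h1

theorem min_aa (P : ℕ) (hP : 2 ≤ P) (i : Fin 8) (c : Fin 8 → ℕ) (hc : c i = 0) :
    ∑ j, c j * aa P j ≠ aa P i := by
  intro h
  obtain ⟨n, hn⟩ : ∃ n, n = P ^ 3 + (P + 1) ^ 3 := ⟨_, rfl⟩
  obtain ⟨A, hA⟩ : ∃ A, A = P ^ 2 := ⟨_, rfl⟩
  obtain ⟨B, hB⟩ : ∃ B, B = P * (P + 1) := ⟨_, rfl⟩
  obtain ⟨C, hC⟩ : ∃ C, C = (P + 1) ^ 2 := ⟨_, rfl⟩
  have hA0 : 0 < A := by rw [hA]; positivity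
  have hAB : A < B := by rw [hA, hB]; nlinarith
  have hBC : B < C := by rw [hB, hC]; nlinarith
  have hCAB : C < A + B := by rw [hA, hB, hC]; nlinarith
  have hABC : A + B + C < n := by rw [hA, hB, hC, hn]; nlinarith [sq_nonneg (P : ℤ), pow_pos (show 0 < P by omega) 3, pow_pos (show 0 < P by omega) 2]
  have haa : aa P = ![n, n + C, n + B, n + B + C, n + A, n + A + C, n + A + B, n + A + B + C] := by
    rw [hn, hA, hB, hC]; rfl
  have hle : ∀ j, n ≤ aa P j := by
    intro j; rw [haa]; fin_cases j <;> simp <;> omega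
  have hlt : ∀ j, aa P j < 2 * n := by
    intro j; rw [haa]; fin_cases j <;> simp <;> omega
  have hinj : ∀ j k, aa P j = aa P k → j = k := by
    intro j k; rw [haa]
    fin_cases j <;> fin_cases k <;> simp <;> omega
  have hsum : (∑ j, c j) * n ≤ ∑ j, c j * aa P j := by
    rw [Finset.sum_mul]
    exact Finset.sum_le_sum fun j _ => Nat.mul_le_mul_left _ (hle j)
  have hs2 : ∑ j, c j < 2 := by
    by_contra hcon
    push Not at hcon
    have : 2 * n ≤ (∑ j, c j) * n := Nat.mul_le_mul_right _ hcon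
    have := hlt i
    omega
  have hn0 : 0 < n := by omega
  have hex : ∃ j, c j ≠ 0 := by
    by_contra hcon
    push Not at hcon
    simp [hcon] at h
    have := hle i
    omega
  obtain ⟨j, hj⟩ := hex
  have hother : ∀ k, k ≠ j → c k = 0 := by
    intro k hk
    by_contra hck
    have : c j + c k ≤ ∑ j, c j := by
      rw [← Finset.sum_pair hk.symm]
      exact Finset.sum_le_sum_of_subset (Finset.subset_univ _)
    omega
  have hcj : c j = 1 := by
    have : c j ≤ ∑ j, c j := Finset.single_le_sum (f := c) (fun _ _ => Nat.zero_le _) (Finset.mem_univ j)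
    omega
  have : ∑ k, c k * aa P k = aa P j := by
    rw [Finset.sum_eq_single j]
    · rw [hcj, one_mul]
    · intro k _ hk; rw [hother k hk, zero_mul]
    · intro hh; exact absurd (Finset.mem_univ j) hh
  rw [this] at h
  have := hinj _ _ h
  subst this
  omega

section ideal
open MvPolynomial
/-- value of an exponent vector -/
def val (P : ℕ) (e : Fin 8 →₀ ℕ) : ℕ := ∑ j, e j * aa P j

/-- the isolated monomials -/
noncomputable def uu (P c : ℕ) : Fin 8 →₀ ℕ := Finsupp.single 4 (P + 1 - c) + Finsupp.single 5 c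

theorem uniq_val (P c : ℕ) (hP : 1 ≤ P) (hc : c ≤ P) (e : Fin 8 →₀ ℕ)
    (h : (val P e : ℤ) = P * nn P + phi P P 0 c) :
    e = Finsupp.single 4 (P - c) + Finsupp.single 5 c := by
  unfold val at h
  rw [sum_aa] at h
  have := uniq P c _ _ _ _ (by exact_mod_cast hP) (by positivity) (by exact_mod_cast hc)
    (by omega) (by omega) (by omega) (by omega) (by omega) (by omega) h
  obtain ⟨h1, h2, h3, h4⟩ := this
  have e0 : e 0 = 0 := by omega
  have e1 : e 1 = 0 := by omega
  have e2 : e 2 = 0 := by omega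
  have e3 : e 3 = 0 := by omega
  have e4 : e 4 = P - c := by omega
  have e5 : e 5 = c := by omega
  have e6 : e 6 = 0 := by omega
  have e7 : e 7 = 0 := by omega
  ext j
  fin_cases j <;> simp [Finsupp.single_apply, e0, e1, e2, e3, e4, e5, e6, e7]

/-- the toric ideal -/
noncomputable abbrev II (P : ℕ) : Ideal (MvPolynomial (Fin 8) ℚ) :=
  RingHom.ker (MvPolynomial.aeval (R := ℚ)
          (fun i : Fin 8 => (Polynomial.X : Polynomial ℚ) ^ (aa P i)))

theorem aeval_mono (P : ℕ) (e : Fin 8 →₀ ℕ) (r : ℚ) :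
    (MvPolynomial.aeval (R := ℚ)
          (fun i : Fin 8 => (Polynomial.X : Polynomial ℚ) ^ (aa P i))) (monomial e r) =
      Polynomial.C r * Polynomial.X ^ (val P e) := by
  rw [aeval_monomial]
  congr 1
  rw [Finsupp.prod_fintype _ _ (by intro i; simp)]
  unfold val
  rw [← Finset.prod_pow_eq_pow_sum]
  refine Finset.prod_congr rfl fun j _ => ?_
  rw [← pow_mul, mul_comm]

theorem coeff_zero_of_unique (P : ℕ) (f : MvPolynomial (Fin 8) ℚ) (hf : f ∈ II P)
    (e : Fin 8 →₀ ℕ) (he : ∀ e', val P e' = val P e → e' = e) : coeff e f = 0 := by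
  rw [RingHom.mem_ker] at hf
  have h2 := congrArg (fun g : Polynomial ℚ => g.coeff (val P e)) hf
  simp only [Polynomial.coeff_zero] at h2
  rw [MvPolynomial.as_sum f, map_sum, Polynomial.finsetSum_coeff] at h2
  simp only [aeval_mono, Polynomial.coeff_C_mul, Polynomial.coeff_X_pow] at h2
  by_cases hs : e ∈ f.support
  · rw [Finset.sum_eq_single e] at h2
    · simpa using h2
    · intro e' _ hne
      rw [if_neg, mul_zero]
      intro hv
      exact hne (he e' hv.symm)
    · intro h; exact absurd hs h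
  · exact notMem_support_iff.mp hs

theorem val_add (P : ℕ) (e e' : Fin 8 →₀ ℕ) : val P (e + e') = val P e + val P e' := by
  unfold val
  simp [add_mul, Finset.sum_add_distrib]

theorem val_single (P : ℕ) (i : Fin 8) (k : ℕ) : val P (Finsupp.single i k) = k * aa P i := by
  unfold val
  rw [Finset.sum_eq_single i]
  · simp
  · intro j _ hj
    simp [Finsupp.single_apply, hj.symm]
  · intro h; exact absurd (Finset.mem_univ i) h

/-- key: for `f ∈ I`, coefficient of `uu c` in `X i * f` vanishes -/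
theorem coeff_X_mul (P c : ℕ) (hP : 1 ≤ P) (hc : c ≤ P) (f : MvPolynomial (Fin 8) ℚ)
    (hf : f ∈ II P) (i : Fin 8) : coeff (uu P c) (f * X i) = 0 := by
  classical
  rw [coeff_mul_X']
  split_ifs with hi
  · have hi' : i = 4 ∨ (i = 5 ∧ 1 ≤ c) := by
      rw [Finsupp.mem_support_iff] at hi
      unfold uu at hi
      simp [Finsupp.single_apply] at hi
      by_cases h4 : i = 4
      · exact Or.inl h4
      · have := hi (by simp [Ne.symm h4])
        exact Or.inr ⟨this.1.symm, by omega⟩
    apply coeff_zero_of_unique P f hf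
    intro e' he'
    rcases hi' with rfl | ⟨rfl, hc1⟩
    · have h1 : uu P c - Finsupp.single 4 1 = Finsupp.single 4 (P - c) + Finsupp.single 5 c := by
        unfold uu
        ext j
        fin_cases j <;> simp [Finsupp.single_apply]
        omega
      rw [h1] at he' ⊢
      apply uniq_val P c hP hc
      rw [he', val_add, val_single, val_single]
      unfold nn phi aa
      simp
      push_cast [Nat.cast_sub hc]
      ring
    · have h1 : uu P c - Finsupp.single 5 1 =
          Finsupp.single 4 (P - (c - 1)) + Finsupp.single 5 (c - 1) := by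
        unfold uu
        ext j
        fin_cases j <;> simp [Finsupp.single_apply]
        omega
      rw [h1] at he' ⊢
      apply uniq_val P (c - 1) hP (by omega)
      rw [he', val_add, val_single, val_single]
      unfold nn phi aa
      simp
      obtain ⟨d, rfl⟩ : ∃ d, c = d + 1 := ⟨c - 1, by omega⟩
      have hd : d ≤ P := by omega
      simp only [Nat.add_sub_cancel]
      push_cast [Nat.cast_sub hd]
      ring
  · rfl

theorem coeff_mul_of_mem (P c : ℕ) (hP : 1 ≤ P) (hc : c ≤ P) (g f : MvPolynomial (Fin 8) ℚ)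
    (hf : f ∈ II P) : coeff (uu P c) (g * f) = coeff 0 g * coeff (uu P c) f := by
  classical
  induction g using MvPolynomial.induction_on with
  | C a => simp [coeff_C_mul, coeff_C]
  | add p q hp hq => rw [add_mul, coeff_add, hp, hq, coeff_add, add_mul]
  | mul_X p i hp =>
    rw [mul_assoc, mul_comm (X i) f, ← mul_assoc,
      coeff_X_mul P c hP hc (p * f) (Ideal.mul_mem_left _ _ hf) i]
    have : coeff 0 (p * X i) = 0 := by
      rw [coeff_mul_X']; simp
    rw [this, zero_mul]

/-- the binomials -/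
noncomputable def ff (P c : ℕ) : MvPolynomial (Fin 8) ℚ :=
  monomial (uu P c) 1 -
    monomial (Finsupp.single 3 c + Finsupp.single 2 (P - c) + Finsupp.single 0 1) 1

theorem ff_mem (P c : ℕ) (hc : c ≤ P) : ff P c ∈ II P := by
  rw [RingHom.mem_ker]
  unfold ff
  rw [map_sub, aeval_mono, aeval_mono]
  have : val P (uu P c) =
      val P (Finsupp.single 3 c + Finsupp.single 2 (P - c) + Finsupp.single 0 1) := by
    unfold uu
    simp only [val_add, val_single]
    have hc1 : c ≤ P + 1 := by omega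
    zify [hc, hc1]
    unfold aa
    simp
    push_cast [Nat.cast_sub hc, Nat.cast_sub hc1]
    ring
  rw [this, sub_self]

theorem coeff_ff (P c c' : ℕ) (hc : c ≤ P) (hc' : c' ≤ P) :
    coeff (uu P c') (ff P c) = if c = c' then 1 else 0 := by
  classical
  unfold ff
  rw [coeff_sub, coeff_monomial, coeff_monomial]
  have h2 : ¬ (Finsupp.single (3 : Fin 8) c + Finsupp.single 2 (P - c) + Finsupp.single 0 1 =
      uu P c') := by
    intro h
    have := DFunLike.congr_fun h 0
    unfold uu at this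
    simp [Finsupp.single_apply] at this
  rw [if_neg h2, sub_zero]
  by_cases h : c = c'
  · rw [h]; simp
  · rw [if_neg h, if_neg]
    intro h'
    have := DFunLike.congr_fun h' 5
    unfold uu at this
    simp [Finsupp.single_apply] at this
    exact h this

theorem many (P : ℕ) (hP : 1 ≤ P) (s : Finset (MvPolynomial (Fin 8) ℚ))
    (hs : Ideal.span (s : Set (MvPolynomial (Fin 8) ℚ)) = II P) : P + 1 ≤ s.card := by
  classical
  let Φ : MvPolynomial (Fin 8) ℚ →ₗ[ℚ] (Fin (P + 1) → ℚ) :=
    LinearMap.pi fun c => MvPolynomial.lcoeff ℚ (uu P c)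
  have hΦ : ∀ f (c : Fin (P + 1)), Φ f c = coeff (uu P c) f := fun f c => rfl
  have hmem : ∀ f ∈ II P, Φ f ∈ Submodule.span ℚ ((s.image Φ : Finset (Fin (P + 1) → ℚ)) :
      Set (Fin (P + 1) → ℚ)) := by
    intro f hf
    rw [← hs] at hf
    obtain ⟨g, hg⟩ := Submodule.mem_span_finset.mp hf
    rw [← hg.2]
    rw [map_sum]
    refine Submodule.sum_mem _ fun x hx => ?_
    have hxI : x ∈ II P := by
      rw [← hs]; exact Ideal.subset_span hx
    have : Φ (g x • x) = coeff 0 (g x) • Φ x := by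
      ext c
      rw [hΦ, smul_eq_mul, coeff_mul_of_mem P c hP (by omega) _ _ hxI]
      simp [hΦ]
    rw [this]
    apply Submodule.smul_mem
    apply Submodule.subset_span
    simp only [Finset.coe_image]
    exact ⟨x, hx, rfl⟩
  have htop : Submodule.span ℚ ((s.image Φ : Finset (Fin (P + 1) → ℚ)) :
      Set (Fin (P + 1) → ℚ)) = ⊤ := by
    rw [eq_top_iff, ← (Pi.basisFun ℚ (Fin (P + 1))).span_eq, Submodule.span_le]
    rintro _ ⟨c, rfl⟩
    have : (Pi.basisFun ℚ (Fin (P + 1))) c = Φ (ff P c) := by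
      ext c'
      rw [hΦ, coeff_ff P c c' (by omega) (by omega)]
      simp [Pi.single_apply, Fin.ext_iff, eq_comm]
    rw [this]
    exact hmem _ (ff_mem P c (by omega))
  have h1 := finrank_span_finset_le_card (R := ℚ) (s.image Φ)
  rw [Set.finrank, htop, finrank_top, Module.finrank_fin_fun] at h1
  exact h1.trans Finset.card_image_le

end ideal

/-- The negation of the preceding statement: For every e there is a bound B such that, for every symmetric numerical semigroup with e minimal generators aᵢ, the kernel of the map from ℚ[x₁..x_e] to ℚ[t] sending xᵢ to t^aᵢ is generated by at most B polynomials. -/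
theorem result :
    ¬ (∀ e : ℕ, ∃ B : ℕ, ∀ a : Fin e → ℕ,
    Finset.univ.gcd a = 1 →
    (∀ i : Fin e, ∀ c : Fin e → ℕ, c i = 0 → ∑ j, c j * a j ≠ a i) →
    (∃ F : ℤ, ∀ z : ℤ,
      ((∃ c : Fin e → ℕ, ((∑ j, c j * a j : ℕ) : ℤ) = z) ↔
        ¬ ∃ c : Fin e → ℕ, ((∑ j, c j * a j : ℕ) : ℤ) = F - z)) →
    ∃ s : Finset (MvPolynomial (Fin e) ℚ), s.card ≤ B ∧
      Ideal.span (s : Set (MvPolynomial (Fin e) ℚ)) =
        RingHom.ker (MvPolynomial.aeval (R := ℚ)
          (fun i : Fin e => (Polynomial.X : Polynomial ℚ) ^ (a i)))) := by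
  intro h
  obtain ⟨B, hB⟩ := h 8
  obtain ⟨s, hs1, hs2⟩ := hB (aa (B + 2)) (gcd_aa _) (fun i c hc => min_aa _ (by omega) i c hc)
    ⟨FF ((B + 2 : ℕ) : ℤ), fun z => by
      rw [mem_iff, mem_iff]; exact symm_iff (B + 2) (by omega) z⟩
  have := many (B + 2) (by omega) s hs2
  omega

end Pool.Agent.S01016
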