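import Pool.Statements.S01246
import Pool.Agent.helper4.Final

set_option autoImplicit false
open CategoryTheory
open Pool Pool.MP_3ca9d5_al

namespace Pool.Agent.S01246

/-- The negation of the preceding statement: For surjections G₁→Q, G₂→Q with finitely generated kernel in G₁, G₁ and G₂ of type FP₂ and Q of type FP₃, the fibre product {(a,b) : π₁a = π₂b} is of type FP₂. -/
theorem result :
    ¬ (∀ (G₁ G₂ Q : Type) [Group G₁] [Group G₂] [Group Q] (π₁ : G₁ →* Q) (π₂ : G₂ →* Q),
      Function.Surjective π₁ → Function.Surjective π₂ → Group.FG π₁.ker →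
      (∃ R : ProjectiveResolution (Rep.trivial ℤ G₁ ℤ), ∀ k ≤ 2,
        ∃ s : Finset (R.complex.X k).V, ∀ x : (R.complex.X k).V,
          x ∈ Submodule.span ℤ
            (Set.range (fun p : G₁ × s => (R.complex.X k).ρ p.1 (p.2 : (R.complex.X k).V)))) →
      (∃ R : ProjectiveResolution (Rep.trivial ℤ G₂ ℤ), ∀ k ≤ 2,
        ∃ s : Finset (R.complex.X k).V, ∀ x : (R.complex.X k).V,
          x ∈ Submodule.span ℤ
            (Set.range (fun p : G₂ × s => (R.complex.X k).ρ p.1 (p.2 : (R.complex.X k).V)))) →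
      (∃ R : ProjectiveResolution (Rep.trivial ℤ Q ℤ), ∀ k ≤ 3,
        ∃ s : Finset (R.complex.X k).V, ∀ x : (R.complex.X k).V,
          x ∈ Submodule.span ℤ
            (Set.range (fun p : Q × s => (R.complex.X k).ρ p.1 (p.2 : (R.complex.X k).V)))) →
      (∃ R : ProjectiveResolution (Rep.trivial ℤ
          ↥((π₁.comp (MonoidHom.fst G₁ G₂)).eqLocus (π₂.comp (MonoidHom.snd G₁ G₂))) ℤ),
        ∀ k ≤ 2,
        ∃ s : Finset (R.complex.X k).V, ∀ x : (R.complex.X k).V,
          x ∈ Submodule.span ℤ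
            (Set.range (fun p : ↥((π₁.comp (MonoidHom.fst G₁ G₂)).eqLocus
                (π₂.comp (MonoidHom.snd G₁ G₂))) × s =>
              (R.complex.X k).ρ p.1 (p.2 : (R.complex.X k).V))))) := by
  obtain ⟨S, hS⟩ := Pool.Agent.helper4.QQ_fg
  let φ : FreeGroup S →* Pool.Agent.helper4.QQ := FreeGroup.lift (fun s => (s : _))
  have hφ : Function.Surjective φ := by
    rw [← MonoidHom.range_eq_top, ← hS]
    exact (FreeGroup.closure_eq_range (S : Set Pool.Agent.helper4.QQ)).symm
  exact Pool.Agent.helper4.reduction Pool.Agent.helper4.QQ Pool.Agent.helper4.QQ_FP3 S φ hφ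
    (Pool.Agent.helper4.QQ_not_fp S φ hφ)

end Pool.Agent.S01246
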