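import Pool.Statements.S01315
import Pool.Agent.helper5.ALMain

set_option autoImplicit false
open Pool Pool.MP_427786_al

namespace Pool.Agent.S01315

/-- For every finite automorphic loop (a loop whose inner mappings L_{x,y}, R_{x,y}, T_x are all automorphisms), its order is a power of 2 if and only if every element has order a power of 2. -/
theorem result :
  ∀ (Q : Type) [Fintype Q] (op : Q → Q → Q) (e : Q),
    (∀ x, op e x = x ∧ op x e = x) →
    (∀ x, Function.Bijective (fun y => op x y)) →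
    (∀ x, Function.Bijective (fun y => op y x)) →
    (∀ x y z₁ z₂ w₁ w₂ : Q,
      op (op y x) w₁ = op y (op x z₁) →
      op (op y x) w₂ = op y (op x z₂) →
      op (op y x) (op w₁ w₂) = op y (op x (op z₁ z₂))) →
    (∀ x y z₁ z₂ w₁ w₂ : Q,
      op w₁ (op x y) = op (op z₁ x) y →
      op w₂ (op x y) = op (op z₂ x) y →
      op (op w₁ w₂) (op x y) = op (op (op z₁ z₂) x) y) →
    (∀ x z₁ z₂ w₁ w₂ : Q,
      op w₁ x = op x z₁ →
      op w₂ x = op x z₂ →
      op (op w₁ w₂) x = op x (op z₁ z₂)) →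
    ((∃ k : ℕ, Fintype.card Q = 2 ^ k) ↔
      ∀ x : Q, ∃ k : ℕ, (fun y => op y x)^[2 ^ k] e = e) := by
  intro Q _ op e hid hL hR h1 h2 h3
  let S : Pool.Agent.helper5.AL.ALoop Q :=
    { op := op
      e := e
      one_op := fun x => (hid x).1
      op_one := fun x => (hid x).2
      bl := hL
      br := hR
      h1 := h1
      h3 := h3 }
  have hiter : ∀ (x : Q) (n : ℕ), (S.R x ^ n) S.e = (fun y => op y x)^[n] e := by
    intro x n
    rw [Equiv.Perm.coe_pow]
    rfl
  constructor
  · rintro ⟨k, hk⟩ x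
    have hk' : Nat.card Q = 2 ^ k := by rw [Nat.card_eq_fintype_card, hk]
    obtain ⟨m, hm⟩ := S.elem_of_card hk' x
    exact ⟨m, by rw [← hiter x]; exact hm⟩
  · intro h
    have h' : ∀ x, ∃ k : ℕ, (S.R x ^ (2 ^ k)) S.e = S.e := by
      intro x
      obtain ⟨k, hk⟩ := h x
      exact ⟨k, by rw [hiter x]; exact hk⟩
    obtain ⟨n, hn⟩ := S.card_of_elem h'
    exact ⟨n, by rw [← Nat.card_eq_fintype_card, hn]⟩

end Pool.Agent.S01315
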