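import Pool.Statements.S01910
import Pool.Agent.helper7.Nil.Index

set_option autoImplicit false
open Pool Pool.MP_734462_al

namespace Pool.Agent.S01910

/-- The negation of the preceding statement: For every field F there is an associative nil F-algebra A of at most countable dimension such that every nil F-algebra of at most countable dimension is the image of a surjective algebra homomorphism from A. -/
theorem result :
    ¬ (∀ (F : Type) [Field F],
      ∃ (A : Type) (_instR : NonUnitalRing A) (_instM : Module F A)
        (_instT : IsScalarTower F A A) (_instC : SMulCommClass F A A),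
        (∀ a : A, ∃ n : ℕ, (fun x : A => a * x)^[n] a = 0) ∧
        Module.rank F A ≤ Cardinal.aleph0 ∧
        ∀ (B : Type) [NonUnitalRing B] [Module F B] [IsScalarTower F B B]
          [SMulCommClass F B B],
          (∀ b : B, ∃ n : ℕ, (fun x : B => b * x)^[n] b = 0) →
          Module.rank F B ≤ Cardinal.aleph0 →
            ∃ f : A →ₙₐ[F] B, Function.Surjective f) := by
  intro h
  obtain ⟨A, i1, i2, i3, i4, hnil, hrank, hA⟩ := h ℚ
  obtain ⟨B, j1, j2, j3, j4, hB1, hB2, hB3⟩ :=
    Pool.Agent.helper7.Nil.main ℚ A hnil hrank
  exact hB3 (hA B hB1 hB2)

end Pool.Agent.S01910
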