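import Pool.Statements.S02035
import Pool.Agent.helper58.FS.Main

set_option autoImplicit false
open Pool Pool.MP_7ca7f9_al

namespace Pool.Agent.S02035

/-- For every char-0 field, d≥5, n, and flag simplicial complex on [n] whose realization is a (d−1)-sphere: off a proper hypersurface of (θ,w,w'), ×w' from degree 1 to degree 2 of S/(I_Δ+(θ,w)) is injective. -/
theorem result :
  ∀ (K : Type) [Field K] [CharZero K] (d n : ℕ), 5 ≤ d →
  ∀ Δ : Finset (Finset (Fin n)),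
    (∀ σ ∈ Δ, ∀ τ : Finset (Fin n), τ ⊆ σ → τ ∈ Δ) →
    (∀ i : Fin n, ({i} : Finset (Fin n)) ∈ Δ) →
    (∀ σ : Finset (Fin n), (∀ i ∈ σ, ∀ j ∈ σ, ({i, j} : Finset (Fin n)) ∈ Δ) → σ ∈ Δ) →
    Nonempty (↥(⋃ σ ∈ Δ, convexHull ℝ ((fun i : Fin n => (Pi.single i (1 : ℝ) : Fin n → ℝ)) '' (↑σ : Set (Fin n))))
      ≃ₜ ↥(Metric.sphere (0 : EuclideanSpace ℝ (Fin d)) 1)) →
    ∃ f : MvPolynomial (Fin (d + 2) × Fin n) K, f ≠ 0 ∧
      ∀ c : Fin (d + 2) × Fin n → K, MvPolynomial.eval c f ≠ 0 →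
        ∀ ℓ : MvPolynomial (Fin n) K, ℓ.IsHomogeneous 1 →
          (∑ i : Fin n, MvPolynomial.C (c (Fin.last (d + 1), i)) * MvPolynomial.X i) * ℓ ∈
            (Ideal.span ((fun σ : Finset (Fin n) => ∏ i ∈ σ, (MvPolynomial.X i : MvPolynomial (Fin n) K)) ''
                {σ : Finset (Fin n) | σ ∉ Δ}) ⊔
             Ideal.span ((fun k : Fin (d + 2) => ∑ i : Fin n, MvPolynomial.C (c (k, i)) * MvPolynomial.X i) ''
                {k : Fin (d + 2) | (k : ℕ) ≤ d})) →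
          ℓ ∈
            (Ideal.span ((fun σ : Finset (Fin n) => ∏ i ∈ σ, (MvPolynomial.X i : MvPolynomial (Fin n) K)) ''
                {σ : Finset (Fin n) | σ ∉ Δ}) ⊔
             Ideal.span ((fun k : Fin (d + 2) => ∑ i : Fin n, MvPolynomial.C (c (k, i)) * MvPolynomial.X i) ''
                {k : Fin (d + 2) | (k : ℕ) ≤ d})) := by
  intro K _ _ d n hd Δ hdown hvert hflag hs
  exact Pool.Agent.helper58.FS.main K d n hd Δ hdown hvert hflag hs

end Pool.Agent.S02035
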