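import Pool.Statements.S02148
import Pool.Agent.helper17.GB.Tower

set_option autoImplicit false
open Pool Pool.MP_84e150_al

namespace Pool.Agent.S02148

/-- The negation of the preceding statement: There is a constant c such that, for every finite primitive permutation group, every base built greedily (each point taken from a largest orbit of the stabilizer of the earlier points) has length at most c times the length of any base. -/
theorem result :
    ¬ (∃ c : ℕ, ∀ (α : Type) [Finite α] (G : Subgroup (Equiv.Perm α)),
      MulAction.IsPreprimitive G α →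
      ∀ (k : ℕ) (b : Fin k → α),
        (∀ g ∈ G, (∀ j : Fin k, g (b j) = b j) → g = 1) →
        (∀ i : Fin k,
          2 ≤ {y : α | ∃ g ∈ G,
                (∀ j : Fin k, j < i → g (b j) = b j) ∧ g (b i) = y}.ncard ∧
          ∀ z : α,
            {y : α | ∃ g ∈ G,
                (∀ j : Fin k, j < i → g (b j) = b j) ∧ g z = y}.ncard ≤
            {y : α | ∃ g ∈ G,
                (∀ j : Fin k, j < i → g (b j) = b j) ∧ g (b i) = y}.ncard) →
        ∀ (r : ℕ) (m : Fin r → α), (∀ g ∈ G, (∀ j : Fin r, g (m j) = m j) → g = 1) →
          k ≤ c * r) := by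
  rintro ⟨c, hc⟩
  obtain ⟨Y, instY, K, hprim, ⟨k, b, hk, hb1, hb2⟩, m, hm⟩ :=
    Pool.Agent.helper17.GB.final (10 * c)
  have := hc Y K hprim k b hb1 hb2 10 m hm
  omega

end Pool.Agent.S02148
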