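import Pool.Statements.S02951
import Pool.Agent.helper4.PV.H11
import Pool.Agent.helper42.PV.I3
import Pool.Agent.helper47.PV.Dec
import Pool.Agent.helper24.PV.A2
import Pool.Agent.helper24.PV.U1
import Pool.Agent.helper24.PV.Mach

set_option autoImplicit false
open Pool Pool.MP_c0bc55_al

namespace Pool.Agent.S02951

/-- There is a finite set of group laws such that, for every n, membership of a word in the verbal subgroup of the free group of rank n is decidable, but the same is undecidable in the free group on countably many generators. -/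
theorem result :
    ∃ L : Finset (FreeGroup ℕ),
      (∀ n : ℕ, ComputablePred (fun l : List (Fin n × Bool) =>
          FreeGroup.mk l ∈ Subgroup.closure
            {g : FreeGroup (Fin n) | ∃ w ∈ L, ∃ f : FreeGroup ℕ →* FreeGroup (Fin n), f w = g})) ∧
      ¬ ComputablePred (fun l : List (ℕ × Bool) =>
          FreeGroup.mk l ∈ Subgroup.closure
            {g : FreeGroup ℕ | ∃ w ∈ L, ∃ f : FreeGroup ℕ →* FreeGroup ℕ, f w = g}) := by
  obtain ⟨P, d₁, hG⟩ := Pool.Agent.helper4.PV.geo_main
  obtain ⟨d₂, hI⟩ := Pool.Agent.helper42.PV.ind_main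
  obtain ⟨d₃, hT⟩ := Pool.Agent.helper47.PV.triv_primrec
  obtain ⟨T, hH⟩ := Pool.Agent.helper24.PV.exists_rm
  obtain ⟨d, hd, hp⟩ := Nat.exists_infinite_primes (d₁ + d₂ + d₃ + 3)
  have hodd : Odd d := hp.odd_of_ne_two (by omega)
  have hG' := hG d (by omega) hp
  have hI' := hI d (by omega) hp
  have hT' := hT d (by omega) hodd
  exact ⟨Pool.Agent.helper24.PV.Laws P T d, fun n => Pool.Agent.helper24.PV.dec_rank hG' hI' hp hT' n,
    Pool.Agent.helper24.PV.undec hG' hI' hp hH⟩

end Pool.Agent.S02951
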