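import Pool.Statements.S03174
import Pool.Agent.helper12.ChainMain

set_option autoImplicit false
open Pool Pool.MP_d413f3_al

namespace Pool.Agent.S03174

/-- The negation of the preceding statement: For every chain T whose lattice O(T) (generated by empty set, T and open rays under union and intersection) has countably based differences, some Abelian l-group has its principal l-ideal lattice order-isomorphic to O(T). -/
theorem result :
    ¬ (∀ (T : Type) [LinearOrder T] (O : Set (Set T)),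
      O = {U : Set T | ∀ S : Set (Set T), ∅ ∈ S → Set.univ ∈ S →
            (∀ a : T, Set.Iio a ∈ S ∧ Set.Ioi a ∈ S) →
            (∀ A ∈ S, ∀ B ∈ S, A ∪ B ∈ S) →
            (∀ A ∈ S, ∀ B ∈ S, A ∩ B ∈ S) → U ∈ S} →
      (∀ a ∈ O, ∀ b ∈ O, ∃ C : Set (Set T), C.Countable ∧
          (∀ c ∈ C, c ∈ O ∧ a ⊆ b ∪ c) ∧
          ∀ x ∈ O, a ⊆ b ∪ x → ∃ c ∈ C, c ⊆ x) →
      ∃ (G : Type) (_ : AddCommGroup G) (_ : Lattice G) (_ : IsOrderedAddMonoid G),
        Nonempty (O ≃o {I : Set G // ∃ a : G, I = {x : G | ∃ n : ℕ, |x| ≤ n • |a|}})) := by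
  intro H
  obtain ⟨W, _, _, hne, hcof⟩ := Pool.Agent.helper12.exists_W
  letI : SuccOrder W := SuccOrder.ofLinearWellFoundedLT W
  haveI : NoMaxOrder W := by
    constructor
    intro a
    obtain ⟨b, hb⟩ := hcof Unit (fun _ => a)
      ((Cardinal.mk_le_aleph0).trans Cardinal.aleph0_le_continuum)
    exact ⟨b, hb ()⟩
  obtain ⟨G, _, _, _, ⟨F⟩⟩ := H (Pool.Agent.helper12.T W)
    (Pool.Agent.helper12.Og (Pool.Agent.helper12.T W)) rfl
    (Pool.Agent.helper12.Og_cbd Pool.Agent.helper12.right_seq Pool.Agent.helper12.left_seq)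
  exact Pool.Agent.helper12.main_contra F hcof

end Pool.Agent.S03174
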