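import Pool.Statements.S03325
-- import your own Pool.Agent.* helpers here
import Pool.Agent.H48.E15.Final

set_option autoImplicit false
open MvPolynomial
open Pool Pool.MP_e15ea6_al

namespace Pool.Agent.S03325

/-- For every field and every finite graph with an edge but no induced pair of disjoint edges, for all large q the powers of the edge ideal have Koszul homology only in degree 2q+i, i.e. reg I^q = 2q. -/
theorem result :
    ∀ (K : Type) [Field K] (n : ℕ) (G : SimpleGraph (Fin n)),
      (∃ a b, G.Adj a b) →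
      (∀ a b c d, G.Adj a b → G.Adj c d → a ≠ c → a ≠ d → b ≠ c → b ≠ d →
        G.Adj a c ∨ G.Adj a d ∨ G.Adj b c ∨ G.Adj b d) →
      ∀ I : Ideal (MvPolynomial (Fin n) K),
        I = Ideal.span {m : MvPolynomial (Fin n) K | ∃ a b, G.Adj a b ∧ m = X a * X b} →
        ∃ Q : ℕ, ∀ q : ℕ, Q ≤ q →
          ∀ (i d : ℕ), 2 * q < d →
          ∀ f : Finset (Fin n) → MvPolynomial (Fin n) K,
            (∀ T : Finset (Fin n), T.card ≠ i → f T = 0) →
            (∀ T : Finset (Fin n), f T ∈ I ^ q ∧ (f T).IsHomogeneous d) →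
            (∀ S : Finset (Fin n),
              ∑ t ∈ Finset.univ \ S,
                (-1 : MvPolynomial (Fin n) K) ^ (S.filter (· < t)).card * X t * f (insert t S) = 0) →
            ∃ g : Finset (Fin n) → MvPolynomial (Fin n) K,
              (∀ U : Finset (Fin n), U.card ≠ i + 1 → g U = 0) ∧
              (∀ U : Finset (Fin n), g U ∈ I ^ q ∧ (g U).IsHomogeneous (d - 1)) ∧
              (∀ T : Finset (Fin n),
                f T = ∑ t ∈ Finset.univ \ T,
                  (-1 : MvPolynomial (Fin n) K) ^ (T.filter (· < t)).card * X t * g (insert t T)) := by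
  intro K _ n G _ hgap I hI
  subst hI
  have hG : Pool.Agent.H48.E15.Gap G := by
    intro a b c d hab hcd
    by_cases h1 : a = c
    · subst h1; exact Or.inr (Or.inl hcd)
    by_cases h2 : a = d
    · subst h2; exact Or.inl hcd.symm
    by_cases h3 : b = c
    · subst h3; exact Or.inr (Or.inr (Or.inr hcd))
    by_cases h4 : b = d
    · subst h4; exact Or.inr (Or.inr (Or.inl hcd.symm))
    exact hgap a b c d hab hcd h1 h2 h3 h4
  refine ⟨n * n * (2 * n) + 1, fun q hq i d hd f hf1 hf2 hf3 => ?_⟩
  exact Pool.Agent.H48.E15.main hG q hq i d hd f hf1 hf2 hf3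

end Pool.Agent.S03325
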