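import Pool.Statements.S04455
-- import your own Pool.Agent.* helpers here
import Pool.Agent.helper22.Erdos.Main

set_option autoImplicit false
open Pool Pool.MP_410a69_an

namespace Pool.Agent.S04455

/-- If w≥0 is bounded on [-1,1] with support [-1,1] and the monic orthogonal polynomials' L²(w dx)-norms have k-th roots tending to 1/2, then removing Lebesgue measure ≤ε from {w>0} leaves a set whose log capacity tends to 1/2 as ε→0. -/
theorem result :
    ∀ w : ℝ → ℝ, Measurable w → (∀ x, 0 ≤ w x) → (∃ M : ℝ, ∀ x, w x ≤ M) →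
      (∀ a b : ℝ, -1 ≤ a → a < b → b ≤ 1 → 0 < ∫ x in a..b, w x) →
      Filter.Tendsto
        (fun k : ℕ =>
          (sInf {t : ℝ | ∃ q : Polynomial ℝ, q.Monic ∧ q.natDegree = k ∧
              t = Real.sqrt (∫ x in (-1:ℝ)..1, (q.eval x) ^ 2 * w x)}) ^ ((1:ℝ) / k))
        Filter.atTop (nhds (1 / 2)) →
      ∀ η : ℝ, 0 < η → ∃ ε : ℝ, 0 < ε ∧
        ∀ E : Set ℝ, MeasurableSet E →
          E ⊆ {x : ℝ | x ∈ Set.Icc (-1:ℝ) 1 ∧ 0 < w x} →
          MeasureTheory.volume ({x : ℝ | x ∈ Set.Icc (-1:ℝ) 1 ∧ 0 < w x} \ E) ≤ ENNReal.ofReal ε →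
          1 / 2 - η ≤ sSup {c : ℝ | ∃ F : Set ℝ, IsCompact F ∧ F ⊆ E ∧
            c = sInf {s : ℝ | ∃ n : ℕ, 1 ≤ n ∧
              s = (sInf {t : ℝ | ∃ q : Polynomial ℝ, q.Monic ∧ q.natDegree = n ∧
                    t = sSup ((fun x => |q.eval x|) '' F)}) ^ ((1:ℝ) / n)}} := by
  intro w hmeas hnn ⟨M, hM⟩ hpos hreg η hη
  have hW : Pool.Agent.helper22.Erdos.Wt w M := ⟨hmeas, hnn, hM, hpos⟩
  -- the lower half of regularity
  have hlow : Pool.Agent.helper22.Erdos.RegLow w := by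
    intro ε hε
    have h1 : (1 / 2 : ℝ) * Real.exp (-ε) < 1 / 2 := by
      have : Real.exp (-ε) < 1 := by rw [Real.exp_lt_one_iff]; linarith
      linarith
    filter_upwards [hreg.eventually_const_lt h1, Filter.eventually_ge_atTop 1] with n hn hn1 p hp hdeg
    have hn0 : (n:ℝ) ≠ 0 := by
      have : n ≠ 0 := by omega
      exact_mod_cast this
    set A := {t : ℝ | ∃ q : Polynomial ℝ, q.Monic ∧ q.natDegree = n ∧
              t = Real.sqrt (∫ x in (-1:ℝ)..1, (q.eval x) ^ 2 * w x)} with hA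
    have hAbdd : BddBelow A := ⟨0, by rintro t ⟨q, _, _, rfl⟩; exact Real.sqrt_nonneg _⟩
    have hA0 : 0 ≤ sInf A := Real.sInf_nonneg (by rintro t ⟨q, _, _, rfl⟩; exact Real.sqrt_nonneg _)
    have hmem : Real.sqrt (Pool.Agent.helper22.Erdos.Bf w p p) ∈ A := by
      refine ⟨p, hp, hdeg, ?_⟩
      unfold Pool.Agent.helper22.Erdos.Bf
      congr 1
      apply intervalIntegral.integral_congr
      intro x _
      simp only
      ring
    have h2 : sInf A ≤ Real.sqrt (Pool.Agent.helper22.Erdos.Bf w p p) := csInf_le hAbdd hmem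
    refine le_trans ?_ h2
    have h3 : ((1 / 2 : ℝ) * Real.exp (-ε)) ^ n ≤ ((sInf A) ^ ((1:ℝ) / n)) ^ n :=
      pow_le_pow_left₀ (by positivity) hn.le n
    have h4 : ((sInf A) ^ ((1:ℝ) / n)) ^ n = sInf A := by
      rw [← Real.rpow_natCast, ← Real.rpow_mul hA0, one_div_mul_cancel hn0, Real.rpow_one]
    have h5 : ((1 / 2 : ℝ) * Real.exp (-ε)) ^ n = Real.exp (-(ε * n)) / 2 ^ n := by
      rw [mul_pow, ← Real.exp_nat_mul, one_div, inv_pow, mul_comm, div_eq_mul_inv]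
      congr 2; ring
    rw [h4, h5] at h3
    exact h3
  -- choose the parameter
  obtain ⟨ε', hε', hmain⟩ := Pool.Agent.helper22.Erdos.main_core hW hlow
    (ε := η / 80) (by positivity)
  refine ⟨ε', hε', ?_⟩
  intro E hE hEsub hvol
  obtain ⟨F, hFc, hFE, hFne, hF⟩ := hmain E hE hEsub hvol
  have hEb : E ⊆ Set.Icc (-1:ℝ) 1 := fun x hx => (hEsub hx).1
  set cst : Set ℝ → ℝ := fun F => sInf {s : ℝ | ∃ n : ℕ, 1 ≤ n ∧
              s = (sInf {t : ℝ | ∃ q : Polynomial ℝ, q.Monic ∧ q.natDegree = n ∧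
                    t = sSup ((fun x => |q.eval x|) '' F)}) ^ ((1:ℝ) / n)} with hcst
  have htnn : ∀ (F : Set ℝ) (n : ℕ), ∀ t ∈ {t : ℝ | ∃ q : Polynomial ℝ, q.Monic ∧ q.natDegree = n ∧
                    t = sSup ((fun x => |q.eval x|) '' F)}, 0 ≤ t := by
    rintro F n t ⟨q, _, _, rfl⟩
    apply Real.sSup_nonneg
    rintro _ ⟨x, _, rfl⟩
    exact abs_nonneg _
  have hsnn : ∀ (F : Set ℝ), ∀ s ∈ {s : ℝ | ∃ n : ℕ, 1 ≤ n ∧
              s = (sInf {t : ℝ | ∃ q : Polynomial ℝ, q.Monic ∧ q.natDegree = n ∧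
                    t = sSup ((fun x => |q.eval x|) '' F)}) ^ ((1:ℝ) / n)}, 0 ≤ s := by
    rintro F s ⟨n, _, rfl⟩
    exact Real.rpow_nonneg (Real.sInf_nonneg (htnn F n)) _
  -- the family is bounded above by 1
  have hbdd : BddAbove {c : ℝ | ∃ F : Set ℝ, IsCompact F ∧ F ⊆ E ∧
            c = sInf {s : ℝ | ∃ n : ℕ, 1 ≤ n ∧
              s = (sInf {t : ℝ | ∃ q : Polynomial ℝ, q.Monic ∧ q.natDegree = n ∧
                    t = sSup ((fun x => |q.eval x|) '' F)}) ^ ((1:ℝ) / n)}} := by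
    refine ⟨1, ?_⟩
    rintro c ⟨F', _, hF'E, rfl⟩
    have h1 : sInf {s : ℝ | ∃ n : ℕ, 1 ≤ n ∧
              s = (sInf {t : ℝ | ∃ q : Polynomial ℝ, q.Monic ∧ q.natDegree = n ∧
                    t = sSup ((fun x => |q.eval x|) '' F')}) ^ ((1:ℝ) / n)} ≤
        (sInf {t : ℝ | ∃ q : Polynomial ℝ, q.Monic ∧ q.natDegree = 1 ∧
                    t = sSup ((fun x => |q.eval x|) '' F')}) ^ ((1:ℝ) / (1:ℕ)) :=
      csInf_le ⟨0, hsnn F'⟩ ⟨1, le_rfl, rfl⟩
    refine h1.trans ?_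
    rw [Nat.cast_one, div_one, Real.rpow_one]
    have h2 : sInf {t : ℝ | ∃ q : Polynomial ℝ, q.Monic ∧ q.natDegree = 1 ∧
                    t = sSup ((fun x => |q.eval x|) '' F')} ≤
        sSup ((fun x => |(Polynomial.X : Polynomial ℝ).eval x|) '' F') :=
      csInf_le ⟨0, htnn F' 1⟩ ⟨Polynomial.X, Polynomial.monic_X, Polynomial.natDegree_X, rfl⟩
    refine h2.trans ?_
    apply Real.sSup_le _ zero_le_one
    rintro _ ⟨x, hx, rfl⟩
    simp only [Polynomial.eval_X]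
    exact abs_le.mpr (hEb (hF'E hx))
  refine le_trans ?_ (le_csSup hbdd ⟨F, hFc, hFE, rfl⟩)
  apply le_csInf
  · exact ⟨_, 1, le_rfl, rfl⟩
  rintro s ⟨n, hn, rfl⟩
  have hn0 : (n:ℝ) ≠ 0 := by
    have : n ≠ 0 := by omega
    exact_mod_cast this
  have hbase : Real.exp (-(Real.log 2 + 80 * (η / 80))) =
      1 / 2 * Real.exp (-η) := by
    rw [neg_add, Real.exp_add, Real.exp_neg, Real.exp_log (by norm_num)]
    congr 2
    · norm_num
    · ring
  have hge : 1 / 2 - η ≤ 1 / 2 * Real.exp (-η) := by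
    have := Real.add_one_le_exp (-η)
    linarith
  refine hge.trans ?_
  have hkey : (1 / 2 * Real.exp (-η)) ^ n ≤ sInf {t : ℝ | ∃ q : Polynomial ℝ, q.Monic ∧
      q.natDegree = n ∧ t = sSup ((fun x => |q.eval x|) '' F)} := by
    apply le_csInf
    · exact ⟨_, Polynomial.X ^ n, Polynomial.monic_X_pow n, Polynomial.natDegree_X_pow n, rfl⟩
    rintro t ⟨q, hq, hqd, rfl⟩
    have h1 := hF q hq (by omega) (sSup ((fun x => |q.eval x|) '' F)) (by
      intro x hx
      apply le_csSup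
      · have hc : ContinuousOn (fun x => |q.eval x|) F := by fun_prop
        exact (hFc.image_of_continuousOn hc).bddAbove
      · exact ⟨x, hx, rfl⟩)
    refine le_trans (le_of_eq ?_) h1
    rw [← hbase, ← Real.exp_nat_mul, hqd]
    congr 1; ring
  calc 1 / 2 * Real.exp (-η) = ((1 / 2 * Real.exp (-η)) ^ n) ^ ((1:ℝ) / n) := by
        rw [← Real.rpow_natCast, ← Real.rpow_mul (by positivity), mul_one_div_cancel hn0,
          Real.rpow_one]
    _ ≤ _ := Real.rpow_le_rpow (by positivity) hkey (by positivity)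

end Pool.Agent.S04455
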