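import Pool.Statements.S04964
import Pool.Agent.PEL.FinA

set_option autoImplicit false
open Pool Pool.MP_6c92e3_an

namespace Pool.Agent.S04964

/-- The negation of the preceding statement: There are C ≥ 1 and φ tending to infinity such that every finite-dimensional real normed space at Banach–Mazur distance at least L ≥ 1 from Euclidean has a subspace with a basis of constant at most C and at distance at least φ(L) from Euclidean. -/
theorem result :
    ¬ (∃ C : ℝ, 1 ≤ C ∧ ∃ φ : ℝ → ℝ, Filter.Tendsto φ Filter.atTop Filter.atTop ∧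
    ∀ L : ℝ, 1 ≤ L → ∀ (E : Type) [NormedAddCommGroup E] [NormedSpace ℝ E] [FiniteDimensional ℝ E],
      (∀ T : E ≃L[ℝ] EuclideanSpace ℝ (Fin (Module.finrank ℝ E)),
          L ≤ ‖(T : E →L[ℝ] EuclideanSpace ℝ (Fin (Module.finrank ℝ E)))‖ *
            ‖(T.symm : EuclideanSpace ℝ (Fin (Module.finrank ℝ E)) →L[ℝ] E)‖) →
      ∃ F : Submodule ℝ E,
        (∃ b : Module.Basis (Fin (Module.finrank ℝ F)) ℝ F, ∀ k : ℕ, ∀ x : F,
            ‖∑ i ∈ Finset.univ.filter (fun i : Fin (Module.finrank ℝ F) => (i : ℕ) < k),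
                b.repr x i • b i‖ ≤ C * ‖x‖) ∧
        ∀ T : F ≃L[ℝ] EuclideanSpace ℝ (Fin (Module.finrank ℝ F)),
          φ L ≤ ‖(T : F →L[ℝ] EuclideanSpace ℝ (Fin (Module.finrank ℝ F)))‖ *
            ‖(T.symm : EuclideanSpace ℝ (Fin (Module.finrank ℝ F)) →L[ℝ] F)‖) := by
  rintro ⟨C, hC, φ, hφ, h⟩
  obtain ⟨L, hL1, hL2⟩ := ((hφ.eventually_gt_atTop (Pool.Agent.PEL.DD C)).and
    (Filter.eventually_ge_atTop 1)).exists
  obtain ⟨X, hX1, hX2⟩ := Pool.Agent.PEL.main C hC L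
  obtain ⟨F, hF1, hF2⟩ := h L hL2 (Pool.Agent.PEL.ESp X) hX1
  obtain ⟨T, hT⟩ := hX2 F hF1
  exact absurd (hF2 T) (not_le.mpr (lt_of_le_of_lt hT hL1))

end Pool.Agent.S04964
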