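import Pool.Statements.S05106
import Pool.Agent.helper26.HuxleyWave

-- The counterexample is the explicit travelling wave
-- u(x,t) = 1/(1+exp(-(x_n/sqrt 2 + 3t/2))), already for n = 1.

set_option autoImplicit false
open Pool Pool.MP_7987d1_an

namespace Pool.Agent.S05106

/-- The negation of the preceding statement: For 1≤n≤8, every C² solution of Δu−u_t=u³−u for t<0 with ∣u∣≤1, ∂u/∂x_n>0 and u_t≥0 has the form u(x,t)=g(ν·x) for a unit vector ν, i.e. is one-dimensional and time-independent. -/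
theorem result :
    ¬ (∀ m : ℕ, m + 1 ≤ 8 → ∀ u : EuclideanSpace ℝ (Fin (m + 1)) × ℝ → ℝ,
    ContDiffOn ℝ 2 u {p | p.2 < 0} →
    (∀ x : EuclideanSpace ℝ (Fin (m + 1)), ∀ t : ℝ, t < 0 →
      |u (x, t)| ≤ 1 ∧
      (∑ i : Fin (m + 1), iteratedFDeriv ℝ 2 (fun y => u (y, t)) x
          (fun _ => EuclideanSpace.single i (1 : ℝ)))
        - deriv (fun s => u (x, s)) t = u (x, t) ^ 3 - u (x, t) ∧
      0 < fderiv ℝ (fun y => u (y, t)) x (EuclideanSpace.single (Fin.last m) (1 : ℝ)) ∧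
      0 ≤ deriv (fun s => u (x, s)) t) →
    ∃ ν : EuclideanSpace ℝ (Fin (m + 1)), ‖ν‖ = 1 ∧
      ∃ g : ℝ → ℝ, ∀ x : EuclideanSpace ℝ (Fin (m + 1)), ∀ t : ℝ, t < 0 →
        u (x, t) = g (inner ℝ ν x)) := by
  intro H
  obtain ⟨ν, -, g, hg⟩ := H 0 (by norm_num) (Pool.Agent.helper26.HuxleyWave.wave 0)
    (Pool.Agent.helper26.HuxleyWave.contDiff_wave 0).contDiffOn (by
      intro x t _
      refine ⟨?_, Pool.Agent.helper26.HuxleyWave.wave_equation 0 x t,
        Pool.Agent.helper26.HuxleyWave.wave_space_mono 0 x t,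
        (Pool.Agent.helper26.HuxleyWave.wave_time_mono 0 x t).le⟩
      rw [abs_of_pos (Pool.Agent.helper26.HuxleyWave.wave_pos 0 _)]
      exact (Pool.Agent.helper26.HuxleyWave.wave_lt_one 0 _).le)
  have h1 := hg 0 (-1) (by norm_num)
  have h2 := hg 0 (-2) (by norm_num)
  rw [← h2] at h1
  unfold Pool.Agent.helper26.HuxleyWave.wave at h1
  rw [Real.sigmoid_inj] at h1
  norm_num at h1

end Pool.Agent.S05106
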