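import Pool.Statements.S05577
-- import your own Pool.Agent.* helpers here
import Pool.Agent.helper30.Bidisk.Main
import Pool.Agent.helper68.Cyc.Main

set_option autoImplicit false
open Pool Pool.MP_9ec595_an

namespace Pool.Agent.S05577

/-- There exist two-variable complex power series f, g with square-summable coefficients, with f*g square-summable, such that 1 is an l2-limit of polynomial multiples of f and of g, but not of f*g. -/
theorem result :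
    ∃ f g : MvPowerSeries (Fin 2) ℂ,
      Summable (fun d : Fin 2 →₀ ℕ => ‖MvPowerSeries.coeff (R := ℂ) d f‖ ^ 2) ∧
      Summable (fun d : Fin 2 →₀ ℕ => ‖MvPowerSeries.coeff (R := ℂ) d g‖ ^ 2) ∧
      Summable (fun d : Fin 2 →₀ ℕ => ‖MvPowerSeries.coeff (R := ℂ) d (f * g)‖ ^ 2) ∧
      (∀ ε : ℝ, 0 < ε → ∃ p : MvPolynomial (Fin 2) ℂ,
        ∑' d : Fin 2 →₀ ℕ,
          ‖MvPowerSeries.coeff (R := ℂ) d ((p : MvPowerSeries (Fin 2) ℂ) * f - 1)‖ ^ 2 < ε) ∧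
      (∀ ε : ℝ, 0 < ε → ∃ p : MvPolynomial (Fin 2) ℂ,
        ∑' d : Fin 2 →₀ ℕ,
          ‖MvPowerSeries.coeff (R := ℂ) d ((p : MvPowerSeries (Fin 2) ℂ) * g - 1)‖ ^ 2 < ε) ∧
      ¬ (∀ ε : ℝ, 0 < ε → ∃ p : MvPolynomial (Fin 2) ℂ,
        ∑' d : Fin 2 →₀ ℕ,
          ‖MvPowerSeries.coeff (R := ℂ) d ((p : MvPowerSeries (Fin 2) ℂ) * (f * g) - 1)‖ ^ 2 < ε) := by
  obtain ⟨H, b, S, n, h0, A1, hbm, hb0, A2, A3, A4, A5, A6⟩ := Pool.Agent.helper68.Cyc.exists_data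
  obtain ⟨f, h1, h2, h3, h4⟩ := Pool.Agent.helper30.Bid.main_aux H b S n h0 hbm (hb0 0) A1 A2 A3 A4 A5 A6
  exact ⟨f, f, h1, h1, h2, h3, h3, h4⟩

end Pool.Agent.S05577
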