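import Pool.Statements.S05978

set_option autoImplicit false
open MeasureTheory
open Pool Pool.MP_be6048_an

namespace Pool.Agent.S05978

/-- The supremum of `‖f‖` on `[-1,1]`. -/
noncomputable def supN (f : ℝ → ℂ) : ℝ := sSup ((fun x => ‖f x‖) '' Set.Icc (-1 : ℝ) 1)

lemma bdd {f : ℝ → ℂ} (hf : Continuous f) :
    BddAbove ((fun x => ‖f x‖) '' Set.Icc (-1 : ℝ) 1) :=
  (isCompact_Icc.image (by fun_prop)).bddAbove

lemma le_supN {f : ℝ → ℂ} (hf : Continuous f) {x : ℝ} (hx : x ∈ Set.Icc (-1 : ℝ) 1) :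
    ‖f x‖ ≤ supN f :=
  le_csSup (bdd hf) (Set.mem_image_of_mem _ hx)

lemma supN_le {f : ℝ → ℂ} {M : ℝ} (h : ∀ x ∈ Set.Icc (-1 : ℝ) 1, ‖f x‖ ≤ M) :
    supN f ≤ M := by
  apply csSup_le
  · exact Set.Nonempty.image _ ⟨0, by norm_num⟩
  · rintro _ ⟨x, hx, rfl⟩
    exact h x hx

lemma supN_nonneg {f : ℝ → ℂ} (hf : Continuous f) : 0 ≤ supN f :=
  (norm_nonneg _).trans (le_supN hf (x := 0) (by norm_num))

/-- An a.e. bound of a continuous function on `[-1,1]` holds everywhere on `[-1,1]`. -/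
lemma everywhere_of_ae {f : ℝ → ℂ} (hf : Continuous f) {M : ℝ}
    (h : ∀ᵐ x ∂(volume.restrict (Set.Icc (-1 : ℝ) 1)), ‖f x‖ ≤ M) :
    ∀ x ∈ Set.Icc (-1 : ℝ) 1, ‖f x‖ ≤ M := by
  have h1 : ∀ᵐ x ∂(volume : Measure ℝ), x ∈ Set.Icc (-1 : ℝ) 1 → ‖f x‖ ≤ M :=
    (ae_restrict_iff' measurableSet_Icc).1 h
  have h2 : Dense {x : ℝ | x ∈ Set.Icc (-1 : ℝ) 1 → ‖f x‖ ≤ M} := Measure.dense_of_ae h1
  have h3 : Set.Ioo (-1 : ℝ) 1 ⊆ {x | ‖f x‖ ≤ M} := by
    intro x hx
    have hcl : IsClosed {x : ℝ | ‖f x‖ ≤ M} := isClosed_le (by fun_prop) continuous_const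
    have : x ∈ closure (Set.Ioo (-1 : ℝ) 1 ∩ {x : ℝ | x ∈ Set.Icc (-1 : ℝ) 1 → ‖f x‖ ≤ M}) :=
      h2.open_subset_closure_inter isOpen_Ioo hx
    have hsub : (Set.Ioo (-1 : ℝ) 1 ∩ {x : ℝ | x ∈ Set.Icc (-1 : ℝ) 1 → ‖f x‖ ≤ M}) ⊆
        {x | ‖f x‖ ≤ M} := by
      rintro y ⟨hy1, hy2⟩
      exact hy2 (Set.Ioo_subset_Icc_self hy1)
    exact (hcl.closure_subset_iff.2 hsub) this
  intro x hx
  have hcl : IsClosed {x : ℝ | ‖f x‖ ≤ M} := isClosed_le (by fun_prop) continuous_const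
  have : closure (Set.Ioo (-1 : ℝ) 1) ⊆ {x | ‖f x‖ ≤ M} := hcl.closure_subset_iff.2 h3
  rw [closure_Ioo (by norm_num)] at this
  exact this hx

lemma eLpNorm_top_eq {f : ℝ → ℂ} (hf : Continuous f) :
    eLpNorm f ⊤ (volume.restrict (Set.Icc (-1 : ℝ) 1)) = ENNReal.ofReal (supN f) := by
  rw [eLpNorm_exponent_top]
  apply le_antisymm
  · apply eLpNormEssSup_le_of_ae_bound
    rw [ae_restrict_iff' measurableSet_Icc]
    exact Filter.Eventually.of_forall (fun x hx => le_supN hf hx)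
  · have hfin : eLpNormEssSup f (volume.restrict (Set.Icc (-1 : ℝ) 1)) ≠ ⊤ := by
      refine ne_top_of_le_ne_top (b := ENNReal.ofReal (supN f)) ENNReal.ofReal_ne_top ?_
      apply eLpNormEssSup_le_of_ae_bound
      rw [ae_restrict_iff' measurableSet_Icc]
      exact Filter.Eventually.of_forall (fun x hx => le_supN hf hx)
    have hae : ∀ᵐ x ∂(volume.restrict (Set.Icc (-1 : ℝ) 1)),
        ‖f x‖ ≤ (eLpNormEssSup f (volume.restrict (Set.Icc (-1 : ℝ) 1))).toReal := by
      filter_upwards [enorm_ae_le_eLpNormEssSup f (volume.restrict (Set.Icc (-1 : ℝ) 1))] with x hx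
      have := ENNReal.toReal_mono hfin hx
      simpa using this
    have := supN_le (everywhere_of_ae hf hae)
    rw [ENNReal.ofReal_le_iff_le_toReal hfin]
    exact this

lemma eLpNorm_one_eq {f : ℝ → ℂ} (hf : Continuous f) :
    eLpNorm f 1 (volume.restrict (Set.Icc (-1 : ℝ) 1)) =
      ENNReal.ofReal (∫ x in (-1 : ℝ)..1, ‖f x‖) := by
  rw [eLpNorm_one_eq_lintegral_enorm, intervalIntegral.integral_of_le (by norm_num),
    ← integral_Icc_eq_integral_Ioc]
  rw [ofReal_integral_norm_eq_lintegral_enorm]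
  exact (hf.continuousOn.integrableOn_compact isCompact_Icc)

/-- `‖2x - s‖₁` on `[-1,1]`. -/
noncomputable def num (s : ℂ) : ℝ := ∫ x in (-1 : ℝ)..1, ‖2 * (x : ℂ) - s‖

/-- `‖(x-a)(x-b)‖_∞` on `[-1,1]`. -/
noncomputable def den (a b : ℂ) : ℝ := supN (fun x => ((x : ℂ) - a) * ((x : ℂ) - b))

lemma num_cont : Continuous num := by
  unfold num
  apply intervalIntegral.continuous_parametric_intervalIntegral_of_continuous'
  fun_prop

lemma den_cont : Continuous (fun p : ℂ × ℂ => den p.1 p.2) := by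
  unfold den supN
  apply IsCompact.continuous_sSup isCompact_Icc
    (f := fun (p : ℂ × ℂ) (x : ℝ) => ‖((x : ℂ) - p.1) * ((x : ℂ) - p.2)‖)
  simp only [Function.HasUncurry.uncurry, id]
  fun_prop

lemma cont_pol (a b : ℂ) : Continuous (fun x : ℝ => ((x : ℂ) - a) * ((x : ℂ) - b)) := by
  fun_prop

lemma le_den (a b : ℂ) {x : ℝ} (hx : x ∈ Set.Icc (-1 : ℝ) 1) :
    ‖(x : ℂ) - a‖ * ‖(x : ℂ) - b‖ ≤ den a b := by
  have := le_supN (cont_pol a b) hx
  rwa [norm_mul] at this


lemma quarter (a b : ℂ) : 1 / 2 ≤ den a b := by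
  have h1 := le_den a b (x := 1) (by norm_num)
  have h2 := le_den a b (x := -1) (by norm_num)
  have h3 := le_den a b (x := 0) (by norm_num)
  rw [← norm_mul] at h1 h2 h3
  have key : (((1 : ℝ) : ℂ) - a) * (((1 : ℝ) : ℂ) - b) + (((-1 : ℝ) : ℂ) - a) * (((-1 : ℝ) : ℂ) - b)
      - (2 : ℂ) * ((((0 : ℝ) : ℂ) - a) * (((0 : ℝ) : ℂ) - b)) = 2 := by
    push_cast
    ring
  have h4 : ‖(2 : ℂ)‖ ≤ ‖(((1 : ℝ) : ℂ) - a) * (((1 : ℝ) : ℂ) - b)‖
      + ‖(((-1 : ℝ) : ℂ) - a) * (((-1 : ℝ) : ℂ) - b)‖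
      + ‖(2 : ℂ)‖ * ‖((((0 : ℝ) : ℂ) - a) * (((0 : ℝ) : ℂ) - b))‖ := by
    rw [← norm_mul]
    nth_rewrite 1 [← key]
    exact (norm_sub_le _ _).trans (add_le_add (norm_add_le _ _) le_rfl)
  have h5 : ‖(2 : ℂ)‖ = 2 := by simp
  rw [h5] at h4
  linarith

lemma den_pos (a b : ℂ) : 0 < den a b := lt_of_lt_of_le (by norm_num) (quarter a b)

/-- Moving the zeros to the real line does not increase `|P|` on `[-1,1]`. -/
lemma den_re_le (a b : ℂ) : den (a.re : ℂ) (b.re : ℂ) ≤ den a b := by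
  apply supN_le
  intro x hx
  refine le_trans ?_ (le_den a b hx)
  rw [norm_mul]
  have key : ∀ c : ℂ, ‖(x : ℂ) - (c.re : ℂ)‖ ≤ ‖(x : ℂ) - c‖ := by
    intro c
    have h1 : ((x : ℂ) - (c.re : ℂ)) = ((((x : ℂ) - c).re : ℝ) : ℂ) := by
      simp
    rw [h1, Complex.norm_real]
    exact Complex.abs_re_le_norm _
  exact mul_le_mul (key a) (key b) (norm_nonneg _) (norm_nonneg _)

lemma num_real (s : ℝ) : num (s : ℂ) = ∫ x in (-1 : ℝ)..1, |2 * x - s| := by
  unfold num
  congr 1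
  ext x
  have : (2 * (x : ℂ) - (s : ℂ)) = ((2 * x - s : ℝ) : ℂ) := by push_cast; ring
  rw [this, Complex.norm_real, Real.norm_eq_abs]

/-- `‖P'‖₁ ≤ 4 ‖P‖` for real quadratics. -/
lemma num_real_le (s t : ℝ) (M : ℝ)
    (hM : ∀ x ∈ Set.Icc (-1 : ℝ) 1, |(x - s) * (x - t)| ≤ M) :
    num ((s + t : ℝ) : ℂ) ≤ 4 * M := by
  rw [num_real]
  have h1 := abs_le.1 (hM 1 (by norm_num))
  have h2 := abs_le.1 (hM (-1) (by norm_num))
  have hint : ∀ a b : ℝ, IntervalIntegrable (fun x : ℝ => |2 * x - (s + t)|) volume a b := by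
    intro a b
    apply Continuous.intervalIntegrable
    fun_prop
  have hint2 : ∀ a b : ℝ, IntervalIntegrable (fun x : ℝ => 2 * x - (s + t)) volume a b := by
    intro a b
    apply Continuous.intervalIntegrable
    fun_prop
  have prim : ∀ a b : ℝ, ∫ x in a..b, (2 * x - (s + t)) = (b - a) * (a + b - (s + t)) := by
    intro a b
    rw [intervalIntegral.integral_sub, intervalIntegral.integral_const_mul, integral_id,
      intervalIntegral.integral_const, smul_eq_mul]
    · ring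
    · apply Continuous.intervalIntegrable; fun_prop
    · apply Continuous.intervalIntegrable; fun_prop
  by_cases hc1 : 2 ≤ s + t
  · have : ∫ x in (-1 : ℝ)..1, |2 * x - (s + t)| = ∫ x in (-1 : ℝ)..1, -(2 * x - (s + t)) := by
      apply intervalIntegral.integral_congr
      intro x hx
      rw [Set.uIcc_of_le (by norm_num)] at hx
      simp only
      rw [abs_of_nonpos (by linarith [hx.2])]
    rw [this, intervalIntegral.integral_neg, prim]
    nlinarith
  by_cases hc2 : s + t ≤ -2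
  · have : ∫ x in (-1 : ℝ)..1, |2 * x - (s + t)| = ∫ x in (-1 : ℝ)..1, (2 * x - (s + t)) := by
      apply intervalIntegral.integral_congr
      intro x hx
      rw [Set.uIcc_of_le (by norm_num)] at hx
      simp only
      rw [abs_of_nonneg (by linarith [hx.1])]
    rw [this, prim]
    nlinarith
  push Not at hc1 hc2
  have h3 := abs_le.1 (hM ((s + t) / 2) ⟨by linarith, by linarith⟩)
  rw [← intervalIntegral.integral_add_adjacent_intervals (hint (-1) ((s + t) / 2))
    (hint ((s + t) / 2) 1)]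
  have e1 : ∫ x in (-1 : ℝ)..((s + t) / 2), |2 * x - (s + t)|
      = ∫ x in (-1 : ℝ)..((s + t) / 2), -(2 * x - (s + t)) := by
    apply intervalIntegral.integral_congr
    intro x hx
    rw [Set.uIcc_of_le (by linarith)] at hx
    simp only
    rw [abs_of_nonpos (by linarith [hx.2])]
  have e2 : ∫ x in ((s + t) / 2)..1, |2 * x - (s + t)|
      = ∫ x in ((s + t) / 2)..1, (2 * x - (s + t)) := by
    apply intervalIntegral.integral_congr
    intro x hx
    rw [Set.uIcc_of_le (by linarith)] at hx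
    simp only
    rw [abs_of_nonneg (by linarith [hx.1])]
  rw [e1, e2, intervalIntegral.integral_neg, prim, prim]
  nlinarith

lemma num_le_of_im (a b : ℂ) {η : ℝ} (ha : |a.im| ≤ η) (hb : |b.im| ≤ η) :
    num (a + b) ≤ 4 * den a b + 4 * η := by
  have h1 : num (a + b) ≤ num ((a.re + b.re : ℝ) : ℂ) + 4 * η := by
    have : num ((a.re + b.re : ℝ) : ℂ) + 4 * η
        = ∫ x in (-1 : ℝ)..1, (‖2 * (x : ℂ) - ((a.re + b.re : ℝ) : ℂ)‖ + 2 * η) := by
      rw [intervalIntegral.integral_add]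
      · simp only [num, intervalIntegral.integral_const, smul_eq_mul]
        ring
      · apply Continuous.intervalIntegrable; fun_prop
      · apply Continuous.intervalIntegrable; fun_prop
    rw [this]
    unfold num
    apply intervalIntegral.integral_mono_on (by norm_num)
    · apply Continuous.intervalIntegrable; fun_prop
    · apply Continuous.intervalIntegrable; fun_prop
    · intro x _
      have e : 2 * (x : ℂ) - (a + b) = (2 * (x : ℂ) - ((a.re + b.re : ℝ) : ℂ))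
          + (-((a.im + b.im : ℝ) : ℂ) * Complex.I) := by
        apply Complex.ext <;> simp
      rw [e]
      refine (norm_add_le _ _).trans (add_le_add le_rfl ?_)
      rw [norm_mul, norm_neg, Complex.norm_real, Complex.norm_I, mul_one, Real.norm_eq_abs]
      have := abs_add_le a.im b.im
      linarith
  have h2 : num ((a.re + b.re : ℝ) : ℂ) ≤ 4 * den (a.re : ℂ) (b.re : ℂ) := by
    apply num_real_le
    intro x hx
    have := le_den (a.re : ℂ) (b.re : ℂ) hx
    rw [← norm_mul] at this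
    have e : ((x : ℂ) - (a.re : ℂ)) * ((x : ℂ) - (b.re : ℂ))
        = (((x - a.re) * (x - b.re) : ℝ) : ℂ) := by push_cast; ring
    rwa [e, Complex.norm_real, Real.norm_eq_abs] at this
  have h3 := den_re_le a b
  linarith

/-- The tail bound: if one zero is far away the quotient is at most `4`. -/
lemma num_le_of_far (a b : ℂ) (hb : 10 ≤ ‖b‖) : num (a + b) ≤ 4 * den a b := by
  obtain ⟨x0, hx0, hx1⟩ : ∃ x0 : ℝ, x0 ∈ Set.Icc (-1 : ℝ) 1 ∧ 1 ≤ ‖(x0 : ℂ) - a‖ := by
    by_contra hcon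
    push Not at hcon
    have h1 := hcon 1 (by norm_num)
    have h2 := hcon (-1) (by norm_num)
    have h3 : ‖((1 : ℝ) : ℂ) - a - (((-1 : ℝ) : ℂ) - a)‖ = 2 := by
      have : ((1 : ℝ) : ℂ) - a - (((-1 : ℝ) : ℂ) - a) = 2 := by push_cast; ring
      rw [this]; simp
    have h4 := norm_sub_le (((1 : ℝ) : ℂ) - a) (((-1 : ℝ) : ℂ) - a)
    linarith
  have hxn : ∀ x ∈ Set.Icc (-1 : ℝ) 1, ‖(x : ℂ)‖ ≤ 1 := by
    intro x hx
    rw [Complex.norm_real, Real.norm_eq_abs]
    exact abs_le.2 hx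
  have hd : (‖b‖ - 1) * ‖(x0 : ℂ) - a‖ ≤ den a b := by
    refine le_trans ?_ (le_den a b hx0)
    rw [mul_comm]
    apply mul_le_mul_of_nonneg_left _ (norm_nonneg _)
    have := norm_sub_norm_le b (x0 : ℂ)
    rw [norm_sub_rev] at this
    have := hxn x0 hx0
    linarith
  have hn : num (a + b) ≤ 2 * (‖(x0 : ℂ) - a‖ + 2 + (‖b‖ + 1)) := by
    have : ∫ x in (-1 : ℝ)..1, (‖(x0 : ℂ) - a‖ + 2 + (‖b‖ + 1))
        = 2 * (‖(x0 : ℂ) - a‖ + 2 + (‖b‖ + 1)) := by
      rw [intervalIntegral.integral_const, smul_eq_mul]; norm_num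
    rw [← this]
    unfold num
    apply intervalIntegral.integral_mono_on (by norm_num)
    · apply Continuous.intervalIntegrable; fun_prop
    · apply Continuous.intervalIntegrable; fun_prop
    · intro x hx
      have e : 2 * (x : ℂ) - (a + b) = ((x0 : ℂ) - a) + ((x : ℂ) - (x0 : ℂ)) + ((x : ℂ) - b) := by
        ring
      rw [e]
      have i1 := norm_add_le (((x0 : ℂ) - a) + ((x : ℂ) - (x0 : ℂ))) ((x : ℂ) - b)
      have i2 := norm_add_le ((x0 : ℂ) - a) ((x : ℂ) - (x0 : ℂ))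
      have i3 := norm_sub_le (x : ℂ) (x0 : ℂ)
      have i4 := norm_sub_le (x : ℂ) b
      have i5 := hxn x hx
      have i6 := hxn x0 hx0
      linarith
  nlinarith [norm_nonneg ((x0 : ℂ) - a)]


lemma norm_form (σ x : ℝ) : ‖2 * (x : ℂ) - (σ : ℂ) * Complex.I‖ = √(4 * x ^ 2 + σ ^ 2) := by
  have e : 2 * (x : ℂ) - (σ : ℂ) * Complex.I = ((2 * x : ℝ) : ℂ) + ((-σ : ℝ) : ℂ) * Complex.I := by
    push_cast; ring
  rw [e, Complex.norm_add_mul_I]
  congr 1
  ring

lemma integral_form {σ : ℝ} (hσ : 0 < σ) :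
    ∫ x in (-1 : ℝ)..1, √(4 * x ^ 2 + σ ^ 2) =
      √(4 + σ ^ 2) + σ ^ 2 / 2 * Real.arsinh (2 / σ) := by
  have hderiv : ∀ x ∈ Set.uIcc (-1 : ℝ) 1, HasDerivAt
      (fun x : ℝ => x / 2 * √(4 * x ^ 2 + σ ^ 2) + σ ^ 2 / 4 * Real.arsinh (2 * x / σ))
      (√(4 * x ^ 2 + σ ^ 2)) x := by
    intro x _
    have hpos : 0 < 4 * x ^ 2 + σ ^ 2 := by positivity
    have hs : 0 < √(4 * x ^ 2 + σ ^ 2) := Real.sqrt_pos.2 hpos
    have h1 : HasDerivAt (fun x : ℝ => 4 * x ^ 2 + σ ^ 2) (8 * x) x := by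
      have := ((hasDerivAt_pow 2 x).const_mul 4).add_const (σ ^ 2)
      refine this.congr_deriv ?_
      norm_num
      ring
    have h2 : HasDerivAt (fun x : ℝ => √(4 * x ^ 2 + σ ^ 2)) (8 * x / (2 * √(4 * x ^ 2 + σ ^ 2))) x :=
      h1.sqrt hpos.ne'
    have h3 : HasDerivAt (fun x : ℝ => x / 2) (1 / 2) x := (hasDerivAt_id x).div_const 2
    have h4 := h3.mul h2
    have h5 : HasDerivAt (fun x : ℝ => 2 * x / σ) (2 / σ) x := by
      have := ((hasDerivAt_id x).const_mul 2).div_const σ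
      simpa using this
    have h6 : HasDerivAt (fun x : ℝ => Real.arsinh (2 * x / σ))
        ((√(1 + (2 * x / σ) ^ 2))⁻¹ * (2 / σ)) x := by
      have := (Real.hasDerivAt_arsinh (2 * x / σ)).comp x h5
      exact this
    have h7 := h6.const_mul (σ ^ 2 / 4)
    have h8 := h4.add h7
    refine h8.congr_deriv ?_
    have e1 : √(1 + (2 * x / σ) ^ 2) = √(4 * x ^ 2 + σ ^ 2) / σ := by
      have : 1 + (2 * x / σ) ^ 2 = (4 * x ^ 2 + σ ^ 2) / σ ^ 2 := by
        field_simp
        ring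
      rw [this, Real.sqrt_div hpos.le, Real.sqrt_sq hσ.le]
    rw [e1]
    have hsq : √(4 * x ^ 2 + σ ^ 2) ^ 2 = 4 * x ^ 2 + σ ^ 2 := Real.sq_sqrt hpos.le
    field_simp
    nlinarith [hsq]
  rw [intervalIntegral.integral_eq_sub_of_hasDerivAt hderiv]
  · have e1 : (2 * (-1 : ℝ) / σ) = -(2 / σ) := by ring
    have e2 : (2 * (1 : ℝ) / σ) = (2 / σ) := by ring
    simp only [e1, e2, Real.arsinh_neg]
    norm_num
    ring
  · apply Continuous.intervalIntegrable
    fun_prop

lemma exp_bound : Real.exp (404 / 100) ≤ 57 := by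
  have h1 : Real.exp (404 / 100) = Real.exp 1 ^ 4 * Real.exp (4 / 100) := by
    rw [← Real.exp_nat_mul, ← Real.exp_add]
    congr 1
    norm_num
  have h2 : Real.exp 1 < 2.7182818286 := Real.exp_one_lt_d9
  have h3 : Real.exp (4 / 100) ≤ 1 / (1 - 4 / 100) := by
    have h := Real.add_one_le_exp (-(4 / 100 : ℝ))
    rw [Real.exp_neg] at h
    have hp := Real.exp_pos (4 / 100 : ℝ)
    rw [le_div_iff₀ (by norm_num)]
    have : (-(4 / 100) + 1 : ℝ) * Real.exp (4 / 100) ≤ 1 := by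
      calc (-(4 / 100) + 1 : ℝ) * Real.exp (4 / 100)
          ≤ (Real.exp (4 / 100))⁻¹ * Real.exp (4 / 100) :=
            mul_le_mul_of_nonneg_right h hp.le
        _ = 1 := inv_mul_cancel₀ hp.ne'
    linarith
  rw [h1]
  have h4 : Real.exp 1 ^ 4 ≤ 2.7182818286 ^ 4 :=
    pow_le_pow_left₀ (Real.exp_pos 1).le h2.le 4
  calc Real.exp 1 ^ 4 * Real.exp (4 / 100) ≤ 2.7182818286 ^ 4 * (1 / (1 - 4 / 100)) :=
        mul_le_mul h4 h3 (Real.exp_pos _).le (by norm_num)
    _ ≤ 57 := by norm_num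

lemma arsinh_bound : 404 / 100 ≤ Real.arsinh (2 / (7 / 100)) := by
  unfold Real.arsinh
  rw [Real.le_log_iff_exp_le]
  · refine exp_bound.trans ?_
    have : (2 / (7 / 100) : ℝ) ≤ √(1 + (2 / (7 / 100) : ℝ) ^ 2) := by
      apply Real.le_sqrt_of_sq_le
      linarith
    linarith [this, show (57 : ℝ) ≤ 2 / (7 / 100) + 2 / (7 / 100) by norm_num]
  · positivity

lemma num_special : (2.011 : ℝ) ≤ num (((7 / 100 : ℝ) : ℂ) * Complex.I) := by
  unfold num
  simp only [norm_form]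
  rw [integral_form (by norm_num)]
  have h1 := arsinh_bound
  have h2 : (2.0012 : ℝ) ≤ √(4 + (7 / 100 : ℝ) ^ 2) := by
    apply Real.le_sqrt_of_sq_le
    norm_num
  nlinarith

lemma main_point : ∃ a b : ℂ, a.im = 7 / 200 ∧ b.im = 7 / 200 ∧ ‖a‖ ≤ 10 ∧ ‖b‖ ≤ 10 ∧
    4.002 * den a b ≤ num (a + b) := by
  set r : ℝ := √(2 + (7 / 100) ^ 2) / 2 with hr
  have hr2 : r ^ 2 = (2 + (7 / 100) ^ 2) / 4 := by
    rw [hr, div_pow, Real.sq_sqrt (by norm_num)]
    norm_num
  have hr0 : 0 ≤ r := by positivity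
  have hr1 : r ≤ 1 := by nlinarith
  refine ⟨⟨r, 7 / 200⟩, ⟨-r, 7 / 200⟩, rfl, rfl, ?_, ?_, ?_⟩
  · refine (Complex.norm_le_abs_re_add_abs_im _).trans ?_
    simp only
    rw [abs_of_nonneg hr0, abs_of_nonneg (by norm_num)]
    linarith
  · refine (Complex.norm_le_abs_re_add_abs_im _).trans ?_
    simp only
    rw [abs_neg, abs_of_nonneg hr0, abs_of_nonneg (by norm_num)]
    linarith
  · have hsum : ((⟨r, 7 / 200⟩ : ℂ) + (⟨-r, 7 / 200⟩ : ℂ)) = ((7 / 100 : ℝ) : ℂ) * Complex.I := by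
      apply Complex.ext
      · simp
      · simp
        norm_num
    rw [hsum]
    have hden : den (⟨r, 7 / 200⟩ : ℂ) (⟨-r, 7 / 200⟩ : ℂ) ≤ (1 + (7 / 100) ^ 2) / 2 := by
      apply supN_le
      intro x hx
      have hx2 : x ^ 2 ≤ 1 := by
        have := hx.1
        have := hx.2
        nlinarith
      have hx0 : 0 ≤ x ^ 2 := sq_nonneg x
      have e : ((x : ℂ) - (⟨r, 7 / 200⟩ : ℂ)) * ((x : ℂ) - (⟨-r, 7 / 200⟩ : ℂ))
          = ((x ^ 2 - (1 + (7 / 100) ^ 2) / 2 : ℝ) : ℂ) + ((-(7 / 100) * x : ℝ) : ℂ) * Complex.I := by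
        apply Complex.ext
        · simp [pow_two]
          nlinarith [hr2]
        · simp [pow_two]
          ring
      rw [e, Complex.norm_add_mul_I]
      apply Real.sqrt_le_iff.2
      constructor
      · norm_num
      · nlinarith
    have := num_special
    linarith [show (4.002 : ℝ) * ((1 + (7 / 100) ^ 2) / 2) ≤ 2.011 by norm_num]


open Polynomial in
lemma factor (Q : Polynomial ℂ) (hQ : Q.natDegree = 2) :
    ∃ c a b : ℂ, c ≠ 0 ∧ Q = C c * ((X - C a) * (X - C b)) := by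
  have hQ0 : Q ≠ 0 := by
    rintro rfl
    simp at hQ
  obtain ⟨a, ha⟩ := IsAlgClosed.exists_root Q (by
    rw [Polynomial.degree_eq_natDegree hQ0, hQ]; norm_num)
  obtain ⟨R, hR⟩ := dvd_iff_isRoot.2 ha
  have hR0 : R ≠ 0 := by
    rintro rfl
    exact hQ0 (by rw [hR, mul_zero])
  have hRd : R.natDegree = 1 := by
    have := congrArg natDegree hR
    rw [natDegree_mul (X_sub_C_ne_zero a) hR0, natDegree_X_sub_C, hQ] at this
    omega
  obtain ⟨b, hb⟩ := IsAlgClosed.exists_root R (by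
    rw [Polynomial.degree_eq_natDegree hR0, hRd]; norm_num)
  obtain ⟨T, hT⟩ := dvd_iff_isRoot.2 hb
  have hT0 : T ≠ 0 := by
    rintro rfl
    exact hR0 (by rw [hT, mul_zero])
  have hTd : T.natDegree = 0 := by
    have := congrArg natDegree hT
    rw [natDegree_mul (X_sub_C_ne_zero b) hT0, natDegree_X_sub_C, hRd] at this
    omega
  rw [eq_C_of_natDegree_eq_zero hTd] at hT
  refine ⟨T.coeff 0, a, b, ?_, ?_⟩
  · intro h0
    rw [h0, C_0, mul_zero] at hT
    exact hR0 hT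
  · rw [hR, hT]
    ring

open Polynomial in
lemma ratio_eq (c a b : ℂ) (hc : c ≠ 0) :
    eLpNorm (fun x : ℝ => ((⇑Polynomial.derivative)^[1]
        (C c * ((X - C a) * (X - C b)))).eval (x : ℂ)) 1
        (volume.restrict (Set.Icc (-1 : ℝ) 1)) /
      eLpNorm (fun x : ℝ => (C c * ((X - C a) * (X - C b))).eval (x : ℂ)) ⊤
        (volume.restrict (Set.Icc (-1 : ℝ) 1))
      = ENNReal.ofReal (num (a + b) / den a b) := by
  have hc' : 0 < ‖c‖ := norm_pos_iff.2 hc
  have e1 : (fun x : ℝ => ((⇑Polynomial.derivative)^[1]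
        (C c * ((X - C a) * (X - C b)))).eval (x : ℂ))
      = fun x : ℝ => c * (2 * (x : ℂ) - (a + b)) := by
    ext x
    simp only [Function.iterate_one, derivative_mul, derivative_C, derivative_sub, derivative_X,
      eval_add, eval_mul, eval_sub, eval_X, eval_C, eval_one, eval_zero]
    ring
  have e2 : (fun x : ℝ => (C c * ((X - C a) * (X - C b))).eval (x : ℂ))
      = fun x : ℝ => c * (((x : ℂ) - a) * ((x : ℂ) - b)) := by
    ext x
    simp
  rw [e1, e2, eLpNorm_one_eq (by fun_prop), eLpNorm_top_eq (by fun_prop)]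
  have e3 : ∫ x in (-1 : ℝ)..1, ‖c * (2 * (x : ℂ) - (a + b))‖ = ‖c‖ * num (a + b) := by
    simp only [norm_mul, num]
    rw [← intervalIntegral.integral_const_mul]
  have e4 : supN (fun x : ℝ => c * (((x : ℂ) - a) * ((x : ℂ) - b))) = ‖c‖ * den a b := by
    apply le_antisymm
    · apply supN_le
      intro x hx
      rw [norm_mul]
      exact mul_le_mul_of_nonneg_left (le_supN (cont_pol a b) hx) (norm_nonneg _)
    · have : den a b ≤ ‖c‖⁻¹ * supN (fun x : ℝ => c * (((x : ℂ) - a) * ((x : ℂ) - b))) := by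
        apply supN_le
        intro x hx
        have := le_supN (f := fun x : ℝ => c * (((x : ℂ) - a) * ((x : ℂ) - b))) (by fun_prop) hx
        rw [norm_mul] at this
        rw [inv_mul_eq_div, le_div_iff₀ hc', mul_comm]
        exact this
      calc ‖c‖ * den a b ≤ ‖c‖ * (‖c‖⁻¹ * supN (fun x : ℝ => c * (((x : ℂ) - a) * ((x : ℂ) - b)))) :=
            mul_le_mul_of_nonneg_left this (norm_nonneg _)
        _ = _ := by rw [← mul_assoc, mul_inv_cancel₀ hc'.ne', one_mul]
  rw [e3, e4, ← ENNReal.ofReal_div_of_pos (mul_pos hc' (den_pos a b))]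
  congr 1
  have := (den_pos a b).ne'
  field_simp

/-- The thin rectangle. -/
def G : Set ℂ := {z : ℂ | |z.re| < 2 ∧ |z.im| < 1 / 10000}

lemma G_open : IsOpen G := by
  have h1 : IsOpen {z : ℂ | |z.re| < 2} := isOpen_lt (by fun_prop) continuous_const
  have h2 : IsOpen {z : ℂ | |z.im| < 1 / 10000} := isOpen_lt (by fun_prop) continuous_const
  exact h1.inter h2

lemma G_eq : G = {z : ℂ | z.re < 2} ∩ {z : ℂ | -2 < z.re} ∩
    ({z : ℂ | z.im < 1 / 10000} ∩ {z : ℂ | -(1 / 10000) < z.im}) := by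
  ext z
  simp only [G, Set.mem_ofPred_eq, Set.mem_inter_iff, abs_lt]
  tauto

lemma G_convex : Convex ℝ G := by
  rw [G_eq]
  exact ((convex_halfSpace_re_lt 2).inter (convex_halfSpace_re_gt (-2))).inter
    ((convex_halfSpace_im_lt _).inter (convex_halfSpace_im_gt _))

lemma G_bounded : Bornology.IsBounded G := by
  rw [Metric.isBounded_iff_subset_closedBall 0]
  refine ⟨3, ?_⟩
  intro z hz
  rw [mem_closedBall_zero_iff]
  refine (Complex.norm_le_abs_re_add_abs_im _).trans ?_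
  linarith [hz.1, hz.2]

lemma G_contains (x : ℝ) (hx : x ∈ Set.Icc (-1 : ℝ) 1) : (x : ℂ) ∈ G := by
  constructor
  · simp only [Complex.ofReal_re]
    rw [abs_lt]
    constructor <;> linarith [hx.1, hx.2]
  · simp

lemma im_of_frontier {z : ℂ} (hz : z ∈ frontier G) : |z.im| ≤ 1 / 10000 := by
  have h1 : z ∈ closure G := frontier_subset_closure hz
  have h2 : closure G ⊆ {z : ℂ | |z.im| ≤ 1 / 10000} := by
    apply closure_minimal
    · intro w hw
      exact hw.2.le
    · exact isClosed_le (by fun_prop) continuous_const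
  exact h2 h1

lemma exists_max : ∃ a b : ℂ, a ∉ G ∧ b ∉ G ∧ 4.002 ≤ num (a + b) / den a b ∧
    ∀ a' b' : ℂ, a' ∉ G → b' ∉ G → num (a' + b') / den a' b' ≤ num (a + b) / den a b := by
  set T : Set (ℂ × ℂ) := (Gᶜ ∩ Metric.closedBall 0 10) ×ˢ (Gᶜ ∩ Metric.closedBall 0 10) with hT
  have hTc : IsCompact T := by
    have : IsCompact (Gᶜ ∩ Metric.closedBall (0 : ℂ) 10) :=
      (isCompact_closedBall 0 10).inter_left G_open.isClosed_compl
    exact this.prod this
  obtain ⟨a0, b0, ha0, hb0, hna, hnb, hab⟩ := main_point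
  have hmem : (a0, b0) ∈ T := by
    refine ⟨⟨?_, ?_⟩, ⟨?_, ?_⟩⟩
    · intro h
      have := h.2
      simp only [ha0] at this
      rw [abs_of_pos (by norm_num)] at this
      norm_num at this
    · simpa using hna
    · intro h
      have := h.2
      simp only [hb0] at this
      rw [abs_of_pos (by norm_num)] at this
      norm_num at this
    · simpa using hnb
  have hF : Continuous (fun p : ℂ × ℂ => num (p.1 + p.2) / den p.1 p.2) := by
    apply Continuous.div
    · exact num_cont.comp (by fun_prop)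
    · exact den_cont
    · intro p
      exact (den_pos _ _).ne'
  obtain ⟨p, hp, hmax⟩ := hTc.exists_isMaxOn ⟨_, hmem⟩ hF.continuousOn
  have hbig : 4.002 ≤ num (p.1 + p.2) / den p.1 p.2 := by
    have h1 : num (a0 + b0) / den a0 b0 ≤ num (p.1 + p.2) / den p.1 p.2 := hmax hmem
    refine le_trans ?_ h1
    rw [le_div_iff₀ (den_pos _ _)]
    exact hab
  refine ⟨p.1, p.2, hp.1.1, hp.2.1, hbig, ?_⟩
  intro a' b' ha' hb'
  by_cases hin : (a', b') ∈ T
  · exact hmax hin
  · have hfar : 10 ≤ ‖a'‖ ∨ 10 ≤ ‖b'‖ := by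
      by_contra hcon
      push Not at hcon
      apply hin
      refine ⟨⟨ha', ?_⟩, ⟨hb', ?_⟩⟩
      · simpa using hcon.1.le
      · simpa using hcon.2.le
    have h4 : num (a' + b') / den a' b' ≤ 4 := by
      rw [div_le_iff₀ (den_pos _ _)]
      rcases hfar with h | h
      · have hsw : den a' b' = den b' a' := by
          unfold den
          congr 1
          ext x
          ring
        rw [hsw, add_comm]
        exact num_le_of_far b' a' h
      · exact num_le_of_far a' b' h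
    linarith

/-- The negation of the preceding statement: Let G be a bounded open convex set in ℂ containing [-1,1], and 1 ≤ k ≤ n, 1 ≤ q ≤ ∞. Take any degree-n complex polynomial with no zeros in G that maximizes the L^q norm of its k-th derivative on [-1,1] over its sup norm there. Then all its zeros lie on the boundary of G. -/
theorem result :
    ¬ (∀ G : Set ℂ, IsOpen G → Convex ℝ G → Bornology.IsBounded G →
      (∀ x : ℝ, x ∈ Set.Icc (-1 : ℝ) 1 → (x : ℂ) ∈ G) →
      ∀ n k : ℕ, 1 ≤ k → k ≤ n →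
      ∀ q : ENNReal, 1 ≤ q →
      ∀ P : Polynomial ℂ, P.natDegree = n → (∀ z ∈ G, P.eval z ≠ 0) →
        (∀ Q : Polynomial ℂ, Q.natDegree = n → (∀ z ∈ G, Q.eval z ≠ 0) →
          eLpNorm (fun x : ℝ => ((⇑Polynomial.derivative)^[k] Q).eval (x : ℂ)) q
              (volume.restrict (Set.Icc (-1 : ℝ) 1)) /
            eLpNorm (fun x : ℝ => Q.eval (x : ℂ)) ⊤
              (volume.restrict (Set.Icc (-1 : ℝ) 1))
          ≤
          eLpNorm (fun x : ℝ => ((⇑Polynomial.derivative)^[k] P).eval (x : ℂ)) q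
              (volume.restrict (Set.Icc (-1 : ℝ) 1)) /
            eLpNorm (fun x : ℝ => P.eval (x : ℂ)) ⊤
              (volume.restrict (Set.Icc (-1 : ℝ) 1))) →
        ∀ z : ℂ, P.eval z = 0 → z ∈ frontier G) := by
  intro h
  obtain ⟨a, b, ha, hb, hbig, hmax⟩ := exists_max
  have hroots := h G G_open G_convex G_bounded G_contains 2 1 le_rfl (by norm_num) 1 le_rfl
    (Polynomial.C 1 * ((Polynomial.X - Polynomial.C a) * (Polynomial.X - Polynomial.C b)))
    (by
      rw [Polynomial.C_1, one_mul, Polynomial.natDegree_mul (Polynomial.X_sub_C_ne_zero a)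
        (Polynomial.X_sub_C_ne_zero b), Polynomial.natDegree_X_sub_C,
        Polynomial.natDegree_X_sub_C])
    (by
      intro z hz h0
      simp only [map_one, one_mul, Polynomial.eval_mul, Polynomial.eval_sub, Polynomial.eval_X,
        Polynomial.eval_C, mul_eq_zero, sub_eq_zero] at h0
      rcases h0 with h0 | h0
      · exact ha (h0 ▸ hz)
      · exact hb (h0 ▸ hz))
    (by
      intro Q hQ hQG
      obtain ⟨c, a', b', hc, rfl⟩ := factor Q hQ
      rw [ratio_eq c a' b' hc, ratio_eq 1 a b one_ne_zero]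
      apply ENNReal.ofReal_le_ofReal
      apply hmax
      · intro hmem
        apply hQG a' hmem
        simp
      · intro hmem
        apply hQG b' hmem
        simp)
  have h1 := im_of_frontier (hroots a (by simp))
  have h2 := im_of_frontier (hroots b (by simp))
  have h3 := num_le_of_im a b h1 h2
  rw [le_div_iff₀ (den_pos _ _)] at hbig
  have h4 := quarter a b
  nlinarith

end Pool.Agent.S05978
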