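import Pool.Statements.S06105
import Pool.Agent.SSE.Fin
import Pool.Agent.SSE.HMain

set_option autoImplicit false
open Pool Pool.MP_c782ad_an

namespace Pool.Agent.S06105

/-- For every primitive nonnegative integer square matrix A, finitely many matrices exist such that every nonnegative integer matrix shift equivalent to A over the nonnegative integers is strong shift equivalent over them to one of these. -/
theorem result :
  ∀ (n : ℕ) (A : Matrix (Fin n) (Fin n) ℕ), 0 < n → (∃ k : ℕ, ∀ i j, 0 < (A ^ k) i j) →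
    ∃ (N : ℕ) (C : Fin N → Σ m : ℕ, Matrix (Fin m) (Fin m) ℕ),
      ∀ (m : ℕ) (B : Matrix (Fin m) (Fin m) ℕ),
        (∃ (l : ℕ) (R : Matrix (Fin n) (Fin m) ℕ) (S : Matrix (Fin m) (Fin n) ℕ),
          0 < l ∧ A ^ l = R * S ∧ B ^ l = S * R ∧ A * R = R * B ∧ S * A = B * S) →
        ∃ i : Fin N, Relation.EqvGen
          (fun X Y : Σ p : ℕ, Matrix (Fin p) (Fin p) ℕ =>
            ∃ (R : Matrix (Fin X.1) (Fin Y.1) ℕ) (S : Matrix (Fin Y.1) (Fin X.1) ℕ),
              X.2 = R * S ∧ Y.2 = S * R)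
          ⟨m, B⟩ (C i) :=
  Pool.Agent.SSE.frozen_of_thmH Pool.Agent.SSE.thmH

end Pool.Agent.S06105
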