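import Pool.Statements.S06287
import Pool.Agent.helper26.C0.NotBAP

/-!
# A closed subspace of `c₀` with the approximation property but not the bounded one

Let `a` be a matrix of Enflo-Davie type (finitely supported rows of summable sup norms, `a² = 0`,
`tr a ≠ 0`), `E_n` the span of its first `n` rows. The space consists of all null families
`(x^k, (u^k_n)_n)_k` of sequences with `x^k / (k + 1) + u^k_n ∈ E_n` for all `k`, `n`, with the
supremum norm.
-/

set_option autoImplicit false
open Pool Pool.MP_d55789_an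
open scoped ENNReal Topology

namespace Pool.Agent.S06287

/-- There is a closed subspace of real c₀ (sequences tending to 0, sup norm) where every compact set is uniformly ε-approximated by finite-rank operators, yet no uniform bound on their norms works for all compact sets and ε. -/
theorem result :
    ∃ S : Submodule ℝ (lp (fun _ : ℕ => ℝ) ∞),
      IsClosed (S : Set (lp (fun _ : ℕ => ℝ) ∞)) ∧
      (∀ x ∈ S, Filter.Tendsto (fun n : ℕ => x n) Filter.atTop (𝓝 0)) ∧
      (∀ K : Set S, IsCompact K → ∀ ε : ℝ, 0 < ε →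
        ∃ T : S →L[ℝ] S, FiniteDimensional ℝ (LinearMap.range (T : S →ₗ[ℝ] S)) ∧
          ∀ x ∈ K, ‖T x - x‖ ≤ ε) ∧
      ¬ ∃ C : ℝ, ∀ K : Set S, IsCompact K → ∀ ε : ℝ, 0 < ε →
        ∃ T : S →L[ℝ] S, FiniteDimensional ℝ (LinearMap.range (T : S →ₗ[ℝ] S)) ∧
          ‖T‖ ≤ C ∧ ∀ x ∈ K, ‖T x - x‖ ≤ ε := by
  obtain ⟨a, s, hs, has, ha, hrel, htr⟩ := Pool.Agent.helper26.C0.exists_matrix
  refine ⟨Pool.Agent.helper26.C0.S a, Pool.Agent.helper26.C0.S_closed, fun x hx => hx.1,
    Pool.Agent.helper26.C0.hasAP ha, ?_⟩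
  rintro ⟨C, h⟩
  have hC : 0 ≤ C := by
    obtain ⟨T, -, h1, -⟩ := h ∅ isCompact_empty 1 one_pos
    exact (ContinuousLinearMap.opNorm_nonneg T).trans h1
  exact Pool.Agent.helper26.C0.not_bap hs has ha hrel htr C hC h

end Pool.Agent.S06287
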