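import Pool.Statements.S07112
import Pool.Agent.EGT.AS
import Pool.Agent.EGT.BFinal
import Pool.Agent.EGT.C01
import Pool.Agent.EGT.C2
import Pool.Agent.EGT.C3
import Pool.Agent.EGT.COA
import Pool.Agent.EGT.COB
import Pool.Agent.EGT.COC
import Pool.Agent.EGT.Det
import Pool.Agent.EGT.EP
import Pool.Agent.EGT.EP1
import Pool.Agent.EGT.FA
import Pool.Agent.EGT.L2
import Pool.Agent.EGT.Lab
import Pool.Agent.EGT.PF
import Pool.Agent.EGT.PSM
import Pool.Agent.EGT.ROW
import Pool.Agent.EGT.TY
import Pool.Agent.EGT.VP2
import Pool.Agent.EGT.VP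
import Pool.Agent.EGT.WD
import Pool.Agent.EGT.WP
import Pool.Agent.EGT.WS
import Pool.Agent.EGT.ZS

set_option autoImplicit false
open Ndcfe74d8
open Filter
open Pool Pool.MP_0b8466_co

namespace Pool.Agent.S07112

/-- The negation of the preceding statement: For all real c>0 and ε>0, for all sufficiently large n, every simple graph on Fin n whose maximal cliques all have ≥ cn vertices has clique transversal number (covering maximal cliques of size ≥2) at most εn. -/
theorem result :
    ¬ (∀ c > (0 : ℝ), ∀ ε > (0 : ℝ), ∀ᶠ n : ℕ in atTop, ∀ G : SimpleGraph (Fin n), AllMaximalCliquesAtLeast G (c * (n : ℝ)) → (G.cliqueTransversalNumber : ℝ) ≤ ε * (n : ℝ)) := by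
  open Pool.Agent.EGT in
  exact fa_main (as_main zs_main (coc_main coa_main cob_main (wd_main (wp_main (psm_main lab_main
    c01_main c2_main c3_main l2_main (pf_main det_main (ep_main row_main ep1_main)
    (vp_main row_main vp2_main))) ws_main) ty_main) b_main))

end Pool.Agent.S07112
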