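import Pool.Statements.S07300
import Pool.Agent.MF.Close2
import Pool.Agent.MF.SubG
import Pool.Agent.helper57.MF.EM
import Pool.Agent.helper65.MF.R8
import Pool.Agent.helper78.MF.EndXB

set_option autoImplicit false
open Pool Pool.MP_141f81_co

namespace Pool.Agent.S07300

/-- The negation of the preceding statement: For every k and nonempty L ⊆ {0,…,k−1}, the maximum size of a family of k-subsets of an n-set whose distinct members pairwise intersect in sizes from L is Θ(n^α) for some real α ≥ 1. -/
theorem result :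
    ¬ (∀ (k : ℕ) (L : Finset ℕ), L.Nonempty → L ⊆ Finset.range k →
      ∃ α : ℝ, 1 ≤ α ∧
        Asymptotics.IsTheta Filter.atTop
          (fun n : ℕ => ((sSup {s : ℕ | ∃ F : Finset (Finset (Fin n)), F.card = s ∧
              (∀ A ∈ F, A.card = k) ∧
              ∀ A ∈ F, ∀ B ∈ F, A ≠ B → (A ∩ B).card ∈ L} : ℕ) : ℝ))
          (fun n : ℕ => (n : ℝ) ^ α)) :=
  MFLB.close2 12 (by norm_num) Pool.Agent.helper57.MF.stmtEM (fun N _ _ _ M Lin a b D mul sq th ze g s hK hE =>
    Pool.Agent.MF.stmtEnd_of (Pool.Agent.helper65.MF.rowsEndX Pool.Agent.MF.stmt_sub) Helper78MF.endXBound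
      N M Lin a b D mul sq th ze g s hK hE)

end Pool.Agent.S07300
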