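import Pool.Statements.S08345
import Pool.Agent.helper42.ThetaGraph
-- import your own Pool.Agent.* helpers here

set_option autoImplicit false
open Classical
open Pool Pool.MP_41216f_co

namespace Pool.Agent.S08345

/-- For a ≥ b ≥ c ≥ 1, any graph made of three internally disjoint paths of lengths a, b, c between two vertices has a chromatic symmetric function that is a nonnegative integer combination of elementary symmetric functions. -/
theorem result :
  ∀ (a b c : ℕ), 1 ≤ c → c ≤ b → b ≤ a →
  ∀ (V : Type) [Fintype V] (G : SimpleGraph V) (u v : V) (p q r : G.Walk u v),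
    u ≠ v → p.IsPath → q.IsPath → r.IsPath →
    p.length = a → q.length = b → r.length = c →
    (∀ x, x ∈ p.support → x ∈ q.support → x = u ∨ x = v) →
    (∀ x, x ∈ p.support → x ∈ r.support → x = u ∨ x = v) →
    (∀ x, x ∈ q.support → x ∈ r.support → x = u ∨ x = v) →
    (∀ x, x ∈ p.support ∨ x ∈ q.support ∨ x ∈ r.support) →
    (∀ x y, G.Adj x y → s(x, y) ∈ p.edges ∨ s(x, y) ∈ q.edges ∨ s(x, y) ∈ r.edges) →
    ∃ coef : Nat.Partition (Fintype.card V) → ℕ,
      (∑ κ ∈ Finset.univ.filter
          (fun κ : V → Fin (Fintype.card V) => ∀ x y, G.Adj x y → κ x ≠ κ y),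
        ∏ x, (MvPolynomial.X (κ x) : MvPolynomial (Fin (Fintype.card V)) ℤ))
      = ∑ μ : Nat.Partition (Fintype.card V),
          (coef μ : MvPolynomial (Fin (Fintype.card V)) ℤ) *
            (μ.parts.map (fun i => MvPolynomial.esymm (Fin (Fintype.card V)) ℤ i)).prod := by
  intro a b c hc hcb hba V _ G u v p q r huv hp hq hr hpa hqb hrc hpq hpr hqr hcov hE
  obtain ⟨a', rfl⟩ : ∃ a', a = a' + 1 := ⟨a - 1, by omega⟩
  obtain ⟨b', rfl⟩ : ∃ b', b = b' + 1 := ⟨b - 1, by omega⟩
  obtain ⟨c', rfl⟩ : ∃ c', c = c' + 1 := ⟨c - 1, by omega⟩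
  have hbij := Pool.Agent.helper42.Theta.par_bijective p q r a' b' c' huv hp hq hr hpa hqb hrc
    hpq hpr hqr hcov
  have hcard : Fintype.card V = a' + b' + c' + 2 := by
    rw [← Fintype.card_congr (Equiv.ofBijective _ hbij)]
    simp only [Fintype.card_sum, Fintype.card_bool, Fintype.card_fin]
    ring
  have key : ∀ n, n = a' + b' + c' + 2 → ∃ coef : Nat.Partition n → ℕ,
      Pool.Agent.helper42.Theta.tht (fun s : Fin (Fintype.card V) =>
        (MvPolynomial.X s : MvPolynomial (Fin (Fintype.card V)) ℤ)) a' b' c'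
      = ∑ μ : Nat.Partition n,
          (coef μ : MvPolynomial (Fin (Fintype.card V)) ℤ) *
            (μ.parts.map (fun i => MvPolynomial.esymm (Fin (Fintype.card V)) ℤ i)).prod := by
    rintro _ rfl
    exact Pool.Agent.helper42.Theta.tht_positive a' b' c'
  obtain ⟨coef, h⟩ := key _ hcard
  refine ⟨coef, ?_⟩
  rw [← h, Finset.sum_filter,
    ← Pool.Agent.helper42.Theta.graph_sum (fun s : Fin (Fintype.card V) =>
        (MvPolynomial.X s : MvPolynomial (Fin (Fintype.card V)) ℤ)) p q r a' b' c' huv hp hq hr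
        hpa hqb hrc hpq hpr hqr hcov hE]

end Pool.Agent.S08345
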