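import Pool.Statements.S09315
import Pool.Agent.helper88.Vis.Main

set_option autoImplicit false
open Pool Pool.MP_6b3417_co

namespace Pool.Agent.S09315

/-- There is a constant c such that for every finite planar point set whose visibility graph (distinct points adjacent iff no point of the set lies strictly between them) has no 5 pairwise visible points, that graph is c-colourable. -/
theorem result :
    ∃ c : ℕ, ∀ P : Finset (ℝ × ℝ), ∀ G : SimpleGraph ↥P,
      (∀ p q : ↥P, G.Adj p q ↔
        (p ≠ q ∧ ∀ r ∈ P, r ∉ openSegment ℝ (p : ℝ × ℝ) (q : ℝ × ℝ))) →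
      G.CliqueFree 5 → G.Colorable c :=
  Pool.Agent.helper47.Vis.frozen_of Pool.Agent.helper47.Vis.bigline
    Pool.Agent.helper88.Vis.partII

end Pool.Agent.S09315
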