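import Pool.Statements.S09333
import Pool.Agent.helper58.NGFinal

set_option autoImplicit false
open Pool Pool.MP_6bf2ef_co

namespace Pool.Agent.S09333

/-- For every graph G on n vertices not isomorphic to P4, P5, the complement of P5, or the bull, there are real symmetric matrices with the off-diagonal patterns of G and its complement whose distinct-eigenvalue counts sum to at most n+2. -/
theorem result :
    ∀ (n : ℕ) (G : SimpleGraph (Fin n)),
      IsEmpty (G ≃g SimpleGraph.pathGraph 4) →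
      IsEmpty (G ≃g SimpleGraph.pathGraph 5) →
      IsEmpty (G ≃g (SimpleGraph.pathGraph 5)ᶜ) →
      IsEmpty (G ≃g SimpleGraph.fromEdgeSet
        ({s((0 : Fin 5), 1), s((1 : Fin 5), 2), s((0 : Fin 5), 2),
          s((0 : Fin 5), 3), s((1 : Fin 5), 4)} : Set (Sym2 (Fin 5)))) →
      ∃ A B : Matrix (Fin n) (Fin n) ℝ,
        A.IsSymm ∧ B.IsSymm ∧
        (∀ i j : Fin n, i ≠ j → (A i j ≠ 0 ↔ G.Adj i j)) ∧
        (∀ i j : Fin n, i ≠ j → (B i j ≠ 0 ↔ Gᶜ.Adj i j)) ∧
        (spectrum ℝ A).ncard + (spectrum ℝ B).ncard ≤ n + 2 := by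
  intro n G h4 h5 h5c hb
  obtain ⟨a, b, ⟨A, a1, a2, a3⟩, ⟨B, b1, b2, b3⟩, hab⟩ :=
    Pool.Agent.helper58.NG.PR_main n G h4 h5 h5c hb
  rw [Fintype.card_fin] at hab
  refine ⟨A, B, a1, b1, a2, b2, ?_⟩
  have e1 : (spectrum ℝ A).ncard ≤ a := a3
  have e2 : (spectrum ℝ B).ncard ≤ b := b3
  omega

end Pool.Agent.S09333
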