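import Pool.Statements.S10849
import Pool.Agent.helper23.BF.Main

set_option autoImplicit false
open Pool Pool.MP_b0e7a9_co

namespace Pool.Agent.S10849

/-- For a nondegenerate d-simplex with vertices in the closed unit ball, 0 ≤ k < d, and x in the simplex: if the open ball of radius ρ at x misses every k-face, then ρ ≤ sqrt((d-k)/(d(k+1))). -/
theorem result :
    ∀ (d k : ℕ), 0 < d → k < d →
    ∀ (p : Fin (d + 1) → EuclideanSpace ℝ (Fin d)), AffineIndependent ℝ p →
    (∀ i, ‖p i‖ ≤ 1) →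
    ∀ (x : EuclideanSpace ℝ (Fin d)), x ∈ convexHull ℝ (Set.range p) →
    ∀ ρ : ℝ,
      Disjoint (Metric.ball x ρ)
        (⋃ (s : Finset (Fin (d + 1))) (_ : s.card = k + 1), convexHull ℝ (p '' (s : Set (Fin (d + 1))))) →
      ρ ≤ Real.sqrt (((d : ℝ) - (k : ℝ)) / ((d : ℝ) * ((k : ℝ) + 1))) := by
  exact Pool.Agent.helper23.BF.main

end Pool.Agent.S10849
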