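import Pool.Statements.S11143
import Pool.Agent.helper9.SV.GraphD
import Pool.Agent.helper33.BE.Main

set_option autoImplicit false
open SimpleGraph
open Pool Pool.MP_be123d_co

namespace Pool.Agent.S11143

/-- Every 2-regular graph of odd order not isomorphic to C3+C4, 3C3+C4 or 2C3+C5 has a bijective labeling of vertices and edges by 1..∣V∣+∣E∣, vertices getting the largest labels, with vertex label plus incident edge labels constant. -/
theorem result :
  ∀ (V : Type) [Fintype V] [DecidableEq V] (G : SimpleGraph V) [DecidableRel G.Adj],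
    G.IsRegularOfDegree 2 → Odd (Fintype.card V) →
    IsEmpty (G ≃g (cycleGraph 3 ⊕g cycleGraph 4)) →
    IsEmpty (G ≃g (((cycleGraph 3 ⊕g cycleGraph 3) ⊕g cycleGraph 3) ⊕g cycleGraph 4)) →
    IsEmpty (G ≃g ((cycleGraph 3 ⊕g cycleGraph 3) ⊕g cycleGraph 5)) →
    ∃ f : V ⊕ G.edgeSet → ℕ, Function.Injective f ∧
      (∀ x, 1 ≤ f x ∧ f x ≤ Fintype.card V + Fintype.card G.edgeSet) ∧
      (∀ v : V, Fintype.card G.edgeSet < f (Sum.inl v)) ∧
      ∃ k : ℕ, ∀ x : V,
        f (Sum.inl x) + ∑ e ∈ Finset.univ.filter (fun e : G.edgeSet => x ∈ (e : Sym2 V)),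
          f (Sum.inr e) = k := by
  intro V _ _ G _ hG hodd h1 h2 h3
  exact Pool.Agent.helper9.SV.magic_of_good Pool.Agent.helper33.BE.all_good V G hG hodd h1 h2 h3

end Pool.Agent.S11143
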