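import Pool.Statements.S11520
import Pool.Agent.helper55.CircleCut

set_option autoImplicit false
open MeasureTheory
open Pool Pool.MP_ced1be_co

namespace Pool.Agent.S11520

/-- The negation of the preceding statement: For any two measurable planar sets of finite area, some open disk or open half-plane contains exactly one third of the area of each set. -/
theorem result :
    ¬ (∀ A₁ A₂ : Set (EuclideanSpace ℝ (Fin 2)),
      MeasurableSet A₁ → MeasurableSet A₂ →
      volume A₁ < ⊤ → volume A₂ < ⊤ →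
      ∃ S : Set (EuclideanSpace ℝ (Fin 2)),
        ((∃ (p : EuclideanSpace ℝ (Fin 2)) (r : ℝ), 0 < r ∧ S = Metric.ball p r) ∨
         (∃ (v : EuclideanSpace ℝ (Fin 2)) (c : ℝ), v ≠ 0 ∧
            S = {x : EuclideanSpace ℝ (Fin 2) | inner ℝ v x < c})) ∧
        volume (A₁ ∩ S) = volume A₁ / 3 ∧
        volume (A₂ ∩ S) = volume A₂ / 3) := by
  intro h
  obtain ⟨A₁, A₂, hm1, hm2, hf1, hf2, hS⟩ := Pool.Agent.helper55.Circle.main 3 le_rfl
  obtain ⟨S, hS1, hS2, hS3⟩ := h A₁ A₂ hm1 hm2 hf1 hf2
  have h1 := hS S hS1 (by exact_mod_cast hS2)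
  rw [hS3] at h1
  simp at h1

end Pool.Agent.S11520
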