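import Pool.Statements.S11885
import Pool.Agent.helper23.DD.Main

set_option autoImplicit false
open Classical
open Pool Pool.MP_dd5ef2_co

namespace Pool.Agent.S11885

/-- For every ε>0 and all large n, summing over all graphs on n vertices the product over pairs i<j of the fraction of other vertices k with an even number of edges in triangle ijk gives at most 2^(εn²). -/
theorem result :
    ∀ ε : ℝ, 0 < ε → ∃ N : ℕ, ∀ n : ℕ, N ≤ n →
      (∑ G : SimpleGraph (Fin n),
        ∏ i : Fin n, ∏ j : Fin n,
          (if i < j then
            (((Finset.univ.filter (fun k : Fin n => k ≠ i ∧ k ≠ j ∧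
                Even ((if G.Adj i j then 1 else 0) + (if G.Adj i k then 1 else 0)
                  + (if G.Adj j k then 1 else 0) : ℕ))).card : ℝ) / ((n : ℝ) - 2))
          else 1)) ≤ (2 : ℝ) ^ (ε * (n : ℝ) ^ 2) := by
  exact Pool.Agent.helper23.DD.main

end Pool.Agent.S11885
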