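import Pool.Statements.S12659
import Pool.Agent.H48.OR.Main
import Pool.Agent.helper15.PB.E2

set_option autoImplicit false
open Pool Pool.MP_0069fb_gt

namespace Pool.Agent.S12659

/-- Every convex body in 3-space contains a centrally symmetric convex body of at least half its volume, and inside any tetrahedron every centrally symmetric convex set has at most half the tetrahedron's volume. -/
theorem result :
    (∀ K : Set (EuclideanSpace ℝ (Fin 3)), IsCompact K → Convex ℝ K → (interior K).Nonempty →
      ∃ C : Set (EuclideanSpace ℝ (Fin 3)), C ⊆ K ∧ Convex ℝ C ∧ IsCompact C ∧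
        (interior C).Nonempty ∧
        (∃ c : EuclideanSpace ℝ (Fin 3), ∀ x ∈ C, (2 : ℝ) • c - x ∈ C) ∧
        MeasureTheory.volume K ≤ 2 * MeasureTheory.volume C) ∧
    (∀ p : Fin 4 → EuclideanSpace ℝ (Fin 3), AffineIndependent ℝ p →
      ∀ C : Set (EuclideanSpace ℝ (Fin 3)), C ⊆ convexHull ℝ (Set.range p) → Convex ℝ C →
        (∃ c : EuclideanSpace ℝ (Fin 3), ∀ x ∈ C, (2 : ℝ) • c - x ∈ C) →
        2 * MeasureTheory.volume C ≤ MeasureTheory.volume (convexHull ℝ (Set.range p))) := by
  exact Pool.Agent.H48.OR.main_of_planar Pool.Agent.helper15.PB.planar_ineq_three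

end Pool.Agent.S12659
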