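import Pool.Statements.S12944
import Pool.Agent.helper62.CPFinal

set_option autoImplicit false
open Pool Pool.MP_2b7e24_gt

namespace Pool.Agent.S12944

/-- The negation of the preceding statement: Every cut-and-project set in R^k from a totally irrational subspace E (any complement F), with a bounded window in F having nonempty interior and null boundary, admits a bi-Lipschitz bijection onto some lattice in E. -/
theorem result :
    ¬ (∀ (k : ℕ) (E F : Submodule ℝ (EuclideanSpace ℝ (Fin k))) (h : IsCompl E F) (W : Set F),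
      1 ≤ Module.finrank ℝ E →
      Set.InjOn (fun x => (Submodule.linearProjOfIsCompl E F h x : EuclideanSpace ℝ (Fin k)))
        {x : EuclideanSpace ℝ (Fin k) | ∀ i, ∃ z : ℤ, (EuclideanSpace.proj i : EuclideanSpace ℝ (Fin k) →L[ℝ] ℝ) x = (z : ℝ)} →
      Dense ((fun x => Submodule.linearProjOfIsCompl F E h.symm x) ''
        {x : EuclideanSpace ℝ (Fin k) | ∀ i, ∃ z : ℤ, (EuclideanSpace.proj i : EuclideanSpace ℝ (Fin k) →L[ℝ] ℝ) x = (z : ℝ)}) →
      Bornology.IsBounded W →
      (interior W).Nonempty →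
      MeasureTheory.volume (frontier W) = 0 →
      ∃ L : AddSubgroup (EuclideanSpace ℝ (Fin k)),
        (L : Set (EuclideanSpace ℝ (Fin k))) ⊆ (E : Set (EuclideanSpace ℝ (Fin k))) ∧
        DiscreteTopology L ∧
        Submodule.span ℝ (L : Set (EuclideanSpace ℝ (Fin k))) = E ∧
        ∃ f : EuclideanSpace ℝ (Fin k) → EuclideanSpace ℝ (Fin k), ∃ c : ℝ, 0 < c ∧
          Set.BijOn f
            ((fun x => (Submodule.linearProjOfIsCompl E F h x : EuclideanSpace ℝ (Fin k))) ''
              {x : EuclideanSpace ℝ (Fin k) | (∀ i, ∃ z : ℤ, (EuclideanSpace.proj i : EuclideanSpace ℝ (Fin k) →L[ℝ] ℝ) x = (z : ℝ)) ∧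
                Submodule.linearProjOfIsCompl F E h.symm x ∈ W})
            (L : Set (EuclideanSpace ℝ (Fin k))) ∧
          ∀ y₁ ∈ ((fun x => (Submodule.linearProjOfIsCompl E F h x : EuclideanSpace ℝ (Fin k))) ''
              {x : EuclideanSpace ℝ (Fin k) | (∀ i, ∃ z : ℤ, (EuclideanSpace.proj i : EuclideanSpace ℝ (Fin k) →L[ℝ] ℝ) x = (z : ℝ)) ∧
                Submodule.linearProjOfIsCompl F E h.symm x ∈ W}),
          ∀ y₂ ∈ ((fun x => (Submodule.linearProjOfIsCompl E F h x : EuclideanSpace ℝ (Fin k))) ''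
              {x : EuclideanSpace ℝ (Fin k) | (∀ i, ∃ z : ℤ, (EuclideanSpace.proj i : EuclideanSpace ℝ (Fin k) →L[ℝ] ℝ) x = (z : ℝ)) ∧
                Submodule.linearProjOfIsCompl F E h.symm x ∈ W}),
            dist y₁ y₂ ≤ c * dist (f y₁) (f y₂) ∧ dist (f y₁) (f y₂) ≤ c * dist y₁ y₂) := by
  intro H
  obtain ⟨D, hD1, hD2, hD3⟩ := Pool.Agent.helper62.CP.exists_holes
  obtain ⟨L, hL, -, hspan, f, c, -, hbij, hdist⟩ := H 3 Pool.Agent.helper62.CP.EE
    Pool.Agent.helper62.CP.FF Pool.Agent.helper62.CP.isCompl (Pool.Agent.helper62.CP.WF D)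
    (by rw [Pool.Agent.helper62.CP.finrank_EE]; norm_num)
    (Pool.Agent.helper62.CP.injOn_projE Pool.Agent.helper62.CP.isCompl)
    (Pool.Agent.helper62.CP.dense_projF Pool.Agent.helper62.CP.isCompl.symm)
    (Pool.Agent.helper62.CP.bounded_WF D)
    (Pool.Agent.helper62.CP.interior_WF D hD1)
    (Pool.Agent.helper62.CP.volume_frontier_WF D hD2)
  have himg := Pool.Agent.helper62.CP.image_eq Pool.Agent.helper62.CP.isCompl D
  refine Pool.Agent.helper62.CP.no_bilip D hD3 L hL hspan f c ?_ ?_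
  · rw [← himg]; exact hbij
  · rw [← himg]; exact hdist

end Pool.Agent.S12944
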