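import Pool.Statements.S13422
import Pool.Agent.helper21.WB.Asm3

set_option autoImplicit false
open Matrix MeasureTheory
open Pool Pool.MP_7b8095_gt

namespace Pool.Agent.S13422

/-- The negation of the preceding statement: For real hyperbolic space of dim at least 4 and complex hyperbolic space of dim at least 2: among lattice conjugacy classes of covolume at most V, the fraction whose R-thin part exceeds an ε share of volume tends to 0 as V grows, for every ε, R > 0. -/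
theorem result :
    ¬ ((∀ d : ℕ, 4 ≤ d →
    ∀ J : Matrix (Fin d ⊕ Unit) (Fin d ⊕ Unit) ℝ, J = Matrix.fromBlocks 1 0 0 (-1) →
    ∀ lift : (Fin d → ℝ) → (Fin d ⊕ Unit → ℝ),
      (∀ y, lift y = Sum.elim y (fun _ => Real.sqrt (1 + ∑ i, y i ^ 2))) →
    ∀ act : Matrix.GeneralLinearGroup (Fin d ⊕ Unit) ℝ → (Fin d → ℝ) → (Fin d → ℝ),
      (∀ γ y, act γ y = fun i => (γ.val *ᵥ lift y) (Sum.inl i)) →
    ∀ μ : Measure (Fin d → ℝ),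
      μ = (volume : Measure (Fin d → ℝ)).withDensity
        (fun y => ENNReal.ofReal (1 / Real.sqrt (1 + ∑ i, y i ^ 2))) →
    ∀ ε : ℝ, 0 < ε → ∀ R : ℝ, 0 < R →
    Filter.Tendsto (fun V : ℝ =>
      (Nat.card {C : Set (Subgroup (Matrix.GeneralLinearGroup (Fin d ⊕ Unit) ℝ)) |
        ∃ Γ : Subgroup (Matrix.GeneralLinearGroup (Fin d ⊕ Unit) ℝ),
          (∀ γ ∈ Γ, (γ.val)ᵀ * J * γ.val = J ∧ 0 < γ.val (Sum.inr ()) (Sum.inr ())) ∧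
          DiscreteTopology Γ ∧
          (∃ F : Set (Fin d → ℝ), MeasurableSet F ∧
            (∀ᵐ y ∂μ, ∃! z, z ∈ F ∧ ∃ γ ∈ Γ, act γ y = z) ∧
            μ F ≤ ENNReal.ofReal V ∧
            ENNReal.ofReal ε * μ F <
              μ (F ∩ {y | ∃ γ ∈ Γ, γ ≠ 1 ∧ -(lift y ⬝ᵥ (J *ᵥ (γ.val *ᵥ lift y))) ≤ 1 + R})) ∧
          C = {Γ' | ∃ g : Matrix.GeneralLinearGroup (Fin d ⊕ Unit) ℝ,
            ((g.val)ᵀ * J * g.val = J ∧ 0 < g.val (Sum.inr ()) (Sum.inr ())) ∧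
            ∀ h, h ∈ Γ' ↔ g⁻¹ * h * g ∈ Γ}} : ℝ) /
      (Nat.card {C : Set (Subgroup (Matrix.GeneralLinearGroup (Fin d ⊕ Unit) ℝ)) |
        ∃ Γ : Subgroup (Matrix.GeneralLinearGroup (Fin d ⊕ Unit) ℝ),
          (∀ γ ∈ Γ, (γ.val)ᵀ * J * γ.val = J ∧ 0 < γ.val (Sum.inr ()) (Sum.inr ())) ∧
          DiscreteTopology Γ ∧
          (∃ F : Set (Fin d → ℝ), MeasurableSet F ∧
            (∀ᵐ y ∂μ, ∃! z, z ∈ F ∧ ∃ γ ∈ Γ, act γ y = z) ∧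
            μ F ≤ ENNReal.ofReal V) ∧
          C = {Γ' | ∃ g : Matrix.GeneralLinearGroup (Fin d ⊕ Unit) ℝ,
            ((g.val)ᵀ * J * g.val = J ∧ 0 < g.val (Sum.inr ()) (Sum.inr ())) ∧
            ∀ h, h ∈ Γ' ↔ g⁻¹ * h * g ∈ Γ}} : ℝ))
      Filter.atTop (nhds 0)) ∧
  (∀ d : ℕ, 2 ≤ d →
    ∀ J : Matrix (Fin d ⊕ Unit) (Fin d ⊕ Unit) ℂ, J = Matrix.fromBlocks 1 0 0 (-1) →
    ∀ act : Matrix.GeneralLinearGroup (Fin d ⊕ Unit) ℂ → (Fin d → ℂ) → (Fin d → ℂ),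
      (∀ γ z, act γ z = fun i => (γ.val *ᵥ Sum.elim z (fun _ => 1)) (Sum.inl i) /
        (γ.val *ᵥ Sum.elim z (fun _ => 1)) (Sum.inr ())) →
    ∀ μ : Measure (Fin d → ℂ),
      μ = ((volume : Measure (Fin d → ℂ)).restrict {z | ∑ i, ‖z i‖ ^ 2 < 1}).withDensity
        (fun z => ENNReal.ofReal ((1 - ∑ i, ‖z i‖ ^ 2)⁻¹ ^ (d + 1))) →
    ∀ ε : ℝ, 0 < ε → ∀ R : ℝ, 0 < R →
    Filter.Tendsto (fun V : ℝ =>
      (Nat.card {C : Set (Subgroup (Matrix.GeneralLinearGroup (Fin d ⊕ Unit) ℂ)) |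
        ∃ Γ : Subgroup (Matrix.GeneralLinearGroup (Fin d ⊕ Unit) ℂ),
          (∀ γ ∈ Γ, (γ.val)ᴴ * J * γ.val = J ∧ γ.val.det = 1) ∧
          (∀ γ : Matrix.GeneralLinearGroup (Fin d ⊕ Unit) ℂ, ∀ c : ℂ,
            c ^ (d + 1) = 1 → γ.val = c • 1 → γ ∈ Γ) ∧
          DiscreteTopology Γ ∧
          (∃ F : Set (Fin d → ℂ), MeasurableSet F ∧
            (∀ᵐ z ∂μ, ∃! w, w ∈ F ∧ ∃ γ ∈ Γ, act γ z = w) ∧
            μ F ≤ ENNReal.ofReal V ∧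
            ENNReal.ofReal ε * μ F <
              μ (F ∩ {z | ∃ γ ∈ Γ, (∀ c : ℂ, γ.val ≠ c • 1) ∧
                ‖1 - ∑ i, z i * star (act γ z i)‖ ^ 2 ≤
                  (1 + R) * ((1 - ∑ i, ‖z i‖ ^ 2) * (1 - ∑ i, ‖act γ z i‖ ^ 2))})) ∧
          C = {Γ' | ∃ g : Matrix.GeneralLinearGroup (Fin d ⊕ Unit) ℂ,
            (g.val)ᴴ * J * g.val = J ∧
            ∀ h, h ∈ Γ' ↔ g⁻¹ * h * g ∈ Γ}} : ℝ) /
      (Nat.card {C : Set (Subgroup (Matrix.GeneralLinearGroup (Fin d ⊕ Unit) ℂ)) |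
        ∃ Γ : Subgroup (Matrix.GeneralLinearGroup (Fin d ⊕ Unit) ℂ),
          (∀ γ ∈ Γ, (γ.val)ᴴ * J * γ.val = J ∧ γ.val.det = 1) ∧
          (∀ γ : Matrix.GeneralLinearGroup (Fin d ⊕ Unit) ℂ, ∀ c : ℂ,
            c ^ (d + 1) = 1 → γ.val = c • 1 → γ ∈ Γ) ∧
          DiscreteTopology Γ ∧
          (∃ F : Set (Fin d → ℂ), MeasurableSet F ∧
            (∀ᵐ z ∂μ, ∃! w, w ∈ F ∧ ∃ γ ∈ Γ, act γ z = w) ∧
            μ F ≤ ENNReal.ofReal V) ∧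
          C = {Γ' | ∃ g : Matrix.GeneralLinearGroup (Fin d ⊕ Unit) ℂ,
            (g.val)ᴴ * J * g.val = J ∧
            ∀ h, h ∈ Γ' ↔ g⁻¹ * h * g ∈ Γ}} : ℝ))
      Filter.atTop (nhds 0))) := by
  intro h
  obtain ⟨ε, R, hε, hR, hnot⟩ := Pool.Agent.helper21.WB.main
  have h1 := h.1 4 le_rfl Pool.Agent.helper21.WB.J rfl Pool.Agent.helper21.WB.lift (fun _ => rfl)
    Pool.Agent.helper21.WB.act (fun _ _ => rfl) Pool.Agent.helper21.WB.μ rfl ε hε R hR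
  apply hnot
  refine h1.congr fun V => ?_
  congr 4
  · ext C
    constructor
    · rintro ⟨Γ, h1, h2, h3, h4⟩
      exact ⟨Γ, ⟨h1, h2, h3⟩, h4⟩
    · rintro ⟨Γ, ⟨h1, h2, h3⟩, h4⟩
      exact ⟨Γ, h1, h2, h3, h4⟩
  · ext C
    constructor
    · rintro ⟨Γ, h1, h2, h3, h4⟩
      exact ⟨Γ, ⟨h1, h2, h3⟩, h4⟩
    · rintro ⟨Γ, ⟨h1, h2, h3⟩, h4⟩
      exact ⟨Γ, h1, h2, h3, h4⟩


end Pool.Agent.S13422
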