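import Pool.Statements.S13736
import Pool.Agent.helper88.Mink.Rep
import Pool.Agent.helper88.Mink.Dim

set_option autoImplicit false
open scoped Pointwise
open Pool Pool.MP_aac655_gt

namespace Pool.Agent.S13736

/-- The negation of the preceding statement: For n ≥ 2, if an irreducible continuous SL(n,ℝ)-representation W admits a nontrivial invariant Minkowski valuation on bodies with 0 inside that is upper semicontinuous but not continuous, then W is isomorphic to Sym^p V or Sym^p V* for some p. -/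
theorem result :
    ¬ (∀ (n : ℕ), 2 ≤ n → ∀ (m : ℕ)
    (ρ : Matrix.SpecialLinearGroup (Fin n) ℝ →* Matrix.GeneralLinearGroup (Fin m) ℝ),
    Continuous (fun A : {A : Matrix (Fin n) (Fin n) ℝ // A.det = 1} =>
      (ρ (⟨A.1, A.2⟩ : Matrix.SpecialLinearGroup (Fin n) ℝ)).val) →
    0 < m →
    (∀ U : Submodule ℝ (Fin m → ℝ),
      (∀ T : Matrix.SpecialLinearGroup (Fin n) ℝ, ∀ w ∈ U, Matrix.mulVec (ρ T).val w ∈ U) →
      U = ⊥ ∨ U = ⊤) →
    (∃ Φ : Set (Fin n → ℝ) → Set (Fin m → ℝ),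
      (∀ K : Set (Fin n → ℝ), IsCompact K → Convex ℝ K → (0 : Fin n → ℝ) ∈ interior K →
        (Φ K).Nonempty ∧ IsCompact (Φ K) ∧ Convex ℝ (Φ K)) ∧
      (∀ (T : Matrix.SpecialLinearGroup (Fin n) ℝ) (K : Set (Fin n → ℝ)),
        IsCompact K → Convex ℝ K → (0 : Fin n → ℝ) ∈ interior K →
        Matrix.mulVec (ρ T).val ''
          Φ (Matrix.mulVec ((T⁻¹ : Matrix.SpecialLinearGroup (Fin n) ℝ) :
              Matrix (Fin n) (Fin n) ℝ) '' K) = Φ K) ∧
      (∀ K L : Set (Fin n → ℝ),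
        IsCompact K → Convex ℝ K → (0 : Fin n → ℝ) ∈ interior K →
        IsCompact L → Convex ℝ L → (0 : Fin n → ℝ) ∈ interior L →
        Convex ℝ (K ∪ L) → Φ (K ∪ L) + Φ (K ∩ L) = Φ K + Φ L) ∧
      (∃ K : Set (Fin n → ℝ), IsCompact K ∧ Convex ℝ K ∧ (0 : Fin n → ℝ) ∈ interior K ∧
        Φ K ≠ {0}) ∧
      (∀ D : Set (Fin m → ℝ), IsCompact D → Convex ℝ D → (0 : Fin m → ℝ) ∈ interior D →
        ∀ (Ks : ℕ → Set (Fin n → ℝ)) (K : Set (Fin n → ℝ)),
          (∀ j, IsCompact (Ks j) ∧ Convex ℝ (Ks j) ∧ (0 : Fin n → ℝ) ∈ interior (Ks j)) →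
          IsCompact K → Convex ℝ K → (0 : Fin n → ℝ) ∈ interior K →
          Filter.Tendsto (fun j => Metric.hausdorffDist (Ks j) K) Filter.atTop (nhds 0) →
          ∃ j0 : ℕ, ∀ j, j0 ≤ j → Φ (Ks j) ⊆ Φ K + D) ∧
      ¬ (∀ (Ks : ℕ → Set (Fin n → ℝ)) (K : Set (Fin n → ℝ)),
          (∀ j, IsCompact (Ks j) ∧ Convex ℝ (Ks j) ∧ (0 : Fin n → ℝ) ∈ interior (Ks j)) →
          IsCompact K → Convex ℝ K → (0 : Fin n → ℝ) ∈ interior K →
          Filter.Tendsto (fun j => Metric.hausdorffDist (Ks j) K) Filter.atTop (nhds 0) →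
          Filter.Tendsto (fun j => Metric.hausdorffDist (Φ (Ks j)) (Φ K))
            Filter.atTop (nhds 0))) →
    ∃ p : ℕ,
      (∃ e : (Fin m → ℝ) ≃ₗ[ℝ] MvPolynomial.homogeneousSubmodule (Fin n) ℝ p,
        ∀ (T : Matrix.SpecialLinearGroup (Fin n) ℝ) (w : Fin m → ℝ),
          ((e (Matrix.mulVec (ρ T).val w) : MvPolynomial.homogeneousSubmodule (Fin n) ℝ p) :
              MvPolynomial (Fin n) ℝ) =
            MvPolynomial.bind₁
              (fun i : Fin n => (∑ j : Fin n,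
                MvPolynomial.C (((T : Matrix.SpecialLinearGroup (Fin n) ℝ) :
                  Matrix (Fin n) (Fin n) ℝ) j i) * MvPolynomial.X j : MvPolynomial (Fin n) ℝ))
              ((e w : MvPolynomial.homogeneousSubmodule (Fin n) ℝ p) : MvPolynomial (Fin n) ℝ)) ∨
      (∃ e : (Fin m → ℝ) ≃ₗ[ℝ] MvPolynomial.homogeneousSubmodule (Fin n) ℝ p,
        ∀ (T : Matrix.SpecialLinearGroup (Fin n) ℝ) (w : Fin m → ℝ),
          ((e (Matrix.mulVec (ρ T).val w) : MvPolynomial.homogeneousSubmodule (Fin n) ℝ p) :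
              MvPolynomial (Fin n) ℝ) =
            MvPolynomial.bind₁
              (fun i : Fin n => (∑ j : Fin n,
                MvPolynomial.C (((T⁻¹ : Matrix.SpecialLinearGroup (Fin n) ℝ) :
                  Matrix (Fin n) (Fin n) ℝ) i j) * MvPolynomial.X j : MvPolynomial (Fin n) ℝ))
              ((e w : MvPolynomial.homogeneousSubmodule (Fin n) ℝ p) : MvPolynomial (Fin n) ℝ))) := by
  intro H
  have hn : (0 : ℕ) < 3 := by norm_num
  have hn2 : (2 : ℕ) ≤ 3 := by norm_num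
  have hfr : Module.finrank ℝ (Pool.Agent.helper88.Mink.W0 3) =
      Module.finrank ℝ (Fin 8 → ℝ) := by
    rw [Pool.Agent.helper88.Mink.finrank_W0_three, Module.finrank_fin_fun]
  obtain ⟨e⟩ : Nonempty ((Pool.Agent.helper88.Mink.W0 3) ≃ₗ[ℝ] (Fin 8 → ℝ)) :=
    FiniteDimensional.nonempty_linearEquiv_of_finrank_eq hfr
  have hF := Pool.Agent.helper88.Mink.cont_FF hn e
  have hu := Pool.Agent.helper88.Mink.en_single hn2
  have hFu : Pool.Agent.helper88.Mink.FF hn e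
      ((Pi.single (⟨0, by omega⟩ : Fin 3) 1 : Fin 3 → ℝ),
      (Pi.single (⟨0, by omega⟩ : Fin 3) 1 : Fin 3 → ℝ)) ≠ 0 := by
    intro h
    have h1 := (LinearEquiv.map_eq_zero_iff e).1 h
    exact Pool.Agent.helper88.Mink.G_ne hn2 (congrArg Subtype.val h1)
  have key := H 3 hn2 8 (Pool.Agent.helper88.Mink.rho e)
    (Pool.Agent.helper88.Mink.rho_cont e) (by norm_num)
    (Pool.Agent.helper88.Mink.rho_irred hn2 e)
    ⟨Pool.Agent.helper88.Mink.Phi (Pool.Agent.helper88.Mink.FF hn e), by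
      refine ⟨?_, ?_, ?_, ?_, ?_, ?_⟩
      · intro K h1 h2 h3
        have hK : Pool.Agent.helper88.Mink.Body K := ⟨h1, h2, h3⟩
        exact ⟨Pool.Agent.helper88.Mink.Phi_nonempty hF hn hK,
          Pool.Agent.helper88.Mink.CC_compact _, Pool.Agent.helper88.Mink.CC_convex _⟩
      · intro T K h1 h2 h3
        exact Pool.Agent.helper88.Mink.Phi_invariant hn e T ⟨h1, h2, h3⟩
      · intro K L h1 h2 h3 h4 h5 h6 hc
        exact Pool.Agent.helper88.Mink.Phi_add hF hn ⟨h1, h2, h3⟩ ⟨h4, h5, h6⟩ hc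
      · have hB := Pool.Agent.helper88.Mink.body_EB (n := 3)
        exact ⟨Pool.Agent.helper88.Mink.EB 3, hB.comp, hB.conv, hB.zint,
          Pool.Agent.helper88.Mink.Phi_ball_ne hn hF hu hFu⟩
      · intro D _ _ hD Ks K hKs h1 h2 h3 hlim
        exact Pool.Agent.helper88.Mink.Phi_usc hF hn
          (fun j => ⟨(hKs j).1, (hKs j).2.1, (hKs j).2.2⟩) ⟨h1, h2, h3⟩ hlim hD
      · intro hcont
        obtain ⟨Ks, K, hKs, hK, hlim, hnot⟩ :=
          Pool.Agent.helper88.Mink.Phi_not_cont hn2 hF hu hFu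
        exact hnot (hcont Ks K (fun j => ⟨(hKs j).comp, (hKs j).conv, (hKs j).zint⟩)
          hK.comp hK.conv hK.zint hlim)⟩
  obtain ⟨p, hp⟩ := key
  have hdim : Module.finrank ℝ (MvPolynomial.homogeneousSubmodule (Fin 3) ℝ p) = 8 := by
    rcases hp with ⟨f, _⟩ | ⟨f, _⟩
    · rw [← f.finrank_eq, Module.finrank_fin_fun]
    · rw [← f.finrank_eq, Module.finrank_fin_fun]
  rw [Pool.Agent.helper88.Mink.finrank_homog] at hdim
  exact Pool.Agent.helper88.Mink.choose_ne_eight p hdim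

end Pool.Agent.S13736
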