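-- Proof of the frozen statement S14770 (disproof of the problem MP_5f3fa1_lc).
-- The graphs hide a permutation of a pure set: ordinary back-and-forth games with few pebbles cannot
-- see the size of the set, while counting games with O(log n) pebbles identify the graph.
import Pool.Statements.S14770
import Pool.Agent.helper78.HP.Final

set_option autoImplicit false
open Pool Pool.MP_5f3fa1_lc

namespace Pool.Agent.S14770

/-- The negation of the preceding statement: There is a constant C such that for every asymmetric graph G on n ≥ 2 vertices identified by the k-pebble bijective (counting) game, some k' ≤ C·k·log n pebbles of the ordinary back-and-forth game identify G. -/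
theorem result :
    ¬ (∃ C : ℝ, ∀ n : ℕ, 2 ≤ n → ∀ G : SimpleGraph (Fin n),
    (∀ σ : G ≃g G, ∀ v, σ v = v) →
    ∀ k : ℕ,
      (∀ (m : ℕ) (H : SimpleGraph (Fin m)),
        (∃ F : Set (Finset (Fin n × Fin m)), (∅ : Finset (Fin n × Fin m)) ∈ F ∧
          (∀ p ∈ F, p.card ≤ k ∧
            (∀ x ∈ p, ∀ y ∈ p, (x.1 = y.1 ↔ x.2 = y.2) ∧ (G.Adj x.1 y.1 ↔ H.Adj x.2 y.2)) ∧
            ∀ q : Finset (Fin n × Fin m), q ⊆ p → q ∈ F) ∧
          ∀ p ∈ F, p.card < k → ∃ f : Fin n ≃ Fin m, ∀ a : Fin n, insert (a, f a) p ∈ F) →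
        Nonempty (G ≃g H)) →
      ∃ k' : ℕ, (k' : ℝ) ≤ C * (k : ℝ) * Real.log (n : ℝ) ∧
        ∀ (m : ℕ) (H : SimpleGraph (Fin m)),
          (∃ F : Set (Finset (Fin n × Fin m)), (∅ : Finset (Fin n × Fin m)) ∈ F ∧
            (∀ p ∈ F, p.card ≤ k' ∧
              (∀ x ∈ p, ∀ y ∈ p, (x.1 = y.1 ↔ x.2 = y.2) ∧ (G.Adj x.1 y.1 ↔ H.Adj x.2 y.2)) ∧
              ∀ q : Finset (Fin n × Fin m), q ⊆ p → q ∈ F) ∧
            ∀ p ∈ F, p.card < k' →
              (∀ a : Fin n, ∃ b : Fin m, insert (a, b) p ∈ F) ∧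
              (∀ b : Fin m, ∃ a : Fin n, insert (a, b) p ∈ F)) →
          Nonempty (G ≃g H)) := by
  rintro ⟨C, hC⟩
  obtain ⟨q, hq, hodd, hqC⟩ := helper78.HP.exists_q (43776 * |C|)
  obtain ⟨n, G, k, hn, hasym, hid, hk, hfo⟩ := helper78.HP.family q hq hodd
  obtain ⟨k', hk', hall⟩ := hC n hn G hasym k (by
    rintro m H ⟨F, h1, h2, h3⟩
    exact hid m H F ⟨h1, fun p hp => (h2 p hp).1, fun p hp => (h2 p hp).2.1,
      fun p hp => (h2 p hp).2.2, h3⟩)
  have hkk : 32 * k' ≤ q + 1 := by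
    have hlog : 0 ≤ (k : ℝ) * Real.log n := by
      apply mul_nonneg (Nat.cast_nonneg _)
      apply Real.log_nonneg
      have : 1 ≤ n := by omega
      exact_mod_cast this
    have h1 : (k' : ℝ) ≤ |C| * ((k : ℝ) * Real.log n) := by
      refine le_trans hk' ?_
      rw [mul_assoc]
      exact mul_le_mul_of_nonneg_right (le_abs_self C) hlog
    have h2 : (k' : ℝ) ≤ |C| * (1368 * ((Nat.log 2 q + 1 : ℕ) : ℝ) ^ 2) :=
      le_trans h1 (mul_le_mul_of_nonneg_left hk (abs_nonneg C))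
    have h3 : (32 * k' : ℝ) ≤ q := by
      refine le_trans ?_ hqC
      linarith
    have h4 : 32 * k' ≤ q := by exact_mod_cast h3
    omega
  obtain ⟨m, H, F, hF, hno⟩ := hfo k' hkk
  exact hno (hall m H ⟨F, hF.empty, fun p hp => ⟨hF.card p hp, hF.iso p hp, hF.sub p hp⟩,
    fun p hp hc => ⟨hF.forth p hp hc, hF.back p hp hc⟩⟩)

end Pool.Agent.S14770
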