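import Pool.Statements.S14914
import Pool.Agent.helper24.Low.Final

set_option autoImplicit false
open FirstOrder FirstOrder.Language
open Pool Pool.MP_75b3be_lc

namespace Pool.Agent.S14914

/-- The negation of the preceding statement: For every complete ω-categorical theory in a countable language with no formula having the tree property (simple), each formula φ(x;y) has a k such that any indiscernible sequence making φ inconsistent makes it k-inconsistent (low). -/
theorem result :
    ¬ (∀ (L : FirstOrder.Language.{0,0}) (T : L.Theory),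
    L.card ≤ Cardinal.aleph0 → T.IsComplete →
    Cardinal.Categorical (Cardinal.aleph0 : Cardinal.{0}) T →
    (∀ (M : Type) [L.Structure M] [M ⊨ T] [Nonempty M] (n m k : ℕ)
        (φ : L.Formula (Fin n ⊕ Fin m)) (p : List ℕ → Fin m → M),
      (∀ (η : ℕ → ℕ) (J : ℕ), ∃ a : Fin n → M, ∀ j < J,
          φ.Realize (Sum.elim a (p (List.ofFn (fun i : Fin j => η i))))) →
      ∃ s : List ℕ, ∃ S : Finset ℕ, S.card = k ∧
        ∃ a : Fin n → M, ∀ i ∈ S, φ.Realize (Sum.elim a (p (s ++ [i])))) →
    ∀ (n m : ℕ) (φ : L.Formula (Fin n ⊕ Fin m)), ∃ k : ℕ,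
      ∀ (M : Type) [L.Structure M] [M ⊨ T] [Nonempty M] (b : ℕ → Fin m → M),
        (∀ (N : ℕ) (ψ : L.Formula (Fin N × Fin m)) (f g : Fin N → ℕ),
            StrictMono f → StrictMono g →
            (ψ.Realize (fun q => b (f q.1) q.2) ↔ ψ.Realize (fun q => b (g q.1) q.2))) →
        (∃ S : Finset ℕ, ¬ ∃ a : Fin n → M, ∀ i ∈ S, φ.Realize (Sum.elim a (b i))) →
        ∀ S : Finset ℕ, S.card = k →
          ¬ ∃ a : Fin n → M, ∀ i ∈ S, φ.Realize (Sum.elim a (b i))) := by
  obtain ⟨V, hc, hi, b, h1, h2⟩ := Pool.Low.exists_bf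
  exact Pool.Low.mt_main b h1 h2

end Pool.Agent.S14914
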