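import Pool.Statements.S15384
import Pool.Agent.helper72.MC.Halt

set_option autoImplicit false
open Pool Pool.MP_d0b6c3_lc

namespace Pool.Agent.S15384

/-- The negation of the preceding statement: It is computably decidable, given a circuit over sets of naturals (singleton inputs; union, intersection, complement, elementwise sum and product gates) and a number b, whether b belongs to the set computed at the output gate. -/
theorem result :
    ¬ (ComputablePred (fun p : List (ℕ × ℕ × ℕ) × ℕ =>
      p.1 ≠ [] ∧ ∃ f : ℕ → Set ℕ,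
        (∀ i o a d : ℕ, p.1[i]? = some (o, a, d) →
          (o = 0 ∧ f i = {a}) ∨
          (o = 1 ∧ a < i ∧ d < i ∧ f i = f a ∪ f d) ∨
          (o = 2 ∧ a < i ∧ d < i ∧ f i = f a ∩ f d) ∨
          (o = 3 ∧ a < i ∧ f i = (f a)ᶜ) ∨
          (o = 4 ∧ a < i ∧ d < i ∧ f i = {n : ℕ | ∃ x ∈ f a, ∃ y ∈ f d, n = x + y}) ∨
          (o = 5 ∧ a < i ∧ d < i ∧ f i = {n : ℕ | ∃ x ∈ f a, ∃ y ∈ f d, n = x * y})) ∧
        p.2 ∈ f (p.1.length - 1))) := by
  intro hdec
  obtain ⟨c, hc⟩ := Pool.Agent.helper72.MC.exists_undec'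
  obtain ⟨e, he⟩ := Pool.Agent.helper72.MC.halting_term c
  apply hc
  have h := Pool.Agent.helper72.MC.main e _ Pool.Agent.helper72.MC.computable_lab' hdec
  exact h.of_eq he

end Pool.Agent.S15384
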