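import Pool.Statements.S15548
import Pool.Agent.helper79.HT.Final

set_option autoImplicit false
open Pool Pool.MP_e6cd9b_lc

namespace Pool.Agent.S15548

/-- The negation of the preceding statement: For some n,k,l ≥ 2: every k-colouring of triples computes an l-colouring of positive integers such that every infinite set whose sums of at most n elements are monochromatic computes an increasing polarized homogeneous triple of infinite sets for the first colouring. -/
theorem result :
    ¬ (∃ n k l : ℕ, 2 ≤ n ∧ 2 ≤ k ∧ 2 ≤ l ∧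
      ∀ x : ℕ → ℕ, (∀ m, x m < k) →
        ∃ y : ℕ → ℕ, (∀ m, y m < l) ∧
          TuringReducible (PFun.lift y) (PFun.lift x) ∧
          ∀ h : ℕ → ℕ, (∀ m, h m ≤ 1) →
            Set.Infinite {m : ℕ | h m = 1} →
            (∀ m, h m = 1 → 0 < m) →
            (∀ F G : Finset ℕ, F.Nonempty → G.Nonempty → F.card ≤ n → G.card ≤ n →
              (∀ a ∈ F, h a = 1) → (∀ a ∈ G, h a = 1) →
              y (∑ a ∈ F, a) = y (∑ a ∈ G, a)) →
            ∃ g : ℕ → ℕ, (∀ m, g m ≤ 1) ∧
              TuringReducible (PFun.lift g) (PFun.lift h) ∧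
              (∀ i : ℕ, i < 3 → Set.Infinite {m : ℕ | g (Nat.pair i m) = 1}) ∧
              ∀ a b c d e f : ℕ, a < b → b < c → d < e → e < f →
                g (Nat.pair 0 a) = 1 → g (Nat.pair 1 b) = 1 → g (Nat.pair 2 c) = 1 →
                g (Nat.pair 0 d) = 1 → g (Nat.pair 1 e) = 1 → g (Nat.pair 2 f) = 1 →
                x (Nat.pair a (Nat.pair b c)) = x (Nat.pair d (Nat.pair e f))) := by
  rintro ⟨n, k, l, hn, hk, hl, H⟩
  obtain ⟨x, hx, hx'⟩ := Pool.Agent.helper79.HT.final
  obtain ⟨y, hy, -, hy'⟩ := H x (fun m => lt_of_le_of_lt (hx m) (by omega))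
  obtain ⟨h, h1, h2, h3, h4, h5⟩ := hx' l y hy
  obtain ⟨g, -, g2, g3, g4⟩ := hy' h h1 h2 h3
    (fun F G hF hG _ _ hF1 hG1 => h4 F G hF hG hF1 hG1)
  exact h5 ⟨g, g2, g3, g4⟩

end Pool.Agent.S15548
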