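import Pool.Statements.S19200
import Pool.Agent.helper98.DPZ.Final

set_option autoImplicit false
open MeasureTheory ProbabilityTheory Filter
open Pool Pool.MP_1e2dfa_pr

namespace Pool.Agent.S19200

/-- The negation of the preceding statement: For SRW on Z^3 in a Gaussian environment, white in time with bounded symmetric positive-definite spatial correlation h, h(0)=1, h(x)~∣x∣^-2, the a.s. free energy p of the normalised partition function satisfies β^2 log(-p(β)) → -c for some c>0 as β↓0. -/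
theorem result :
    ¬ (∀ (h : (Fin 3 → ℤ) → ℝ),
    (∃ M : ℝ, ∀ x, |h x| ≤ M) →
    (∀ x, h (-x) = h x) →
    (∀ (s : Finset (Fin 3 → ℤ)) (a : (Fin 3 → ℤ) → ℝ),
        0 ≤ Finset.sum s (fun x => Finset.sum s (fun y => a x * a y * h (x - y)))) →
    h 0 = 1 →
    Tendsto (fun x : Fin 3 → ℤ => h x * Finset.sum Finset.univ (fun i : Fin 3 => ((x i : ℝ)) ^ 2))
      cofinite (nhds 1) →
    ∀ (Ω : Type) [MeasurableSpace Ω] (P : Measure Ω) [IsProbabilityMeasure P]
      (ω : ℕ → (Fin 3 → ℤ) → Ω → ℝ),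
      (∀ n x, Measurable (ω n x)) →
      (∀ (s : Finset (ℕ × (Fin 3 → ℤ))) (a : ℕ × (Fin 3 → ℤ) → ℝ),
        P.map (fun w => Finset.sum s (fun i => a i * ω i.1 i.2 w)) =
          gaussianReal 0 (Real.toNNReal
            (Finset.sum s (fun i => Finset.sum s (fun j =>
              a i * a j * (if i.1 = j.1 then h (i.2 - j.2) else 0)))))) →
      ∀ p : ℝ → ℝ,
        (∀ β : ℝ, 0 < β → Filter.Eventually (fun w =>
          Tendsto
            (fun N : ℕ => Real.log (((6 : ℝ) ^ N)⁻¹ *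
              Finset.sum Finset.univ (fun σ : Fin N → Fin 3 × Bool =>
                Real.exp (Finset.sum (Finset.Icc 1 N) (fun n =>
                  β * ω n (Finset.sum (Finset.univ.filter (fun k : Fin N => k.val < n))
                      (fun k => (Pi.single (σ k).1 (if (σ k).2 then (1 : ℤ) else -1) : Fin 3 → ℤ))) w
                    - β ^ 2 / 2)))) / (N : ℝ))
            atTop (nhds (p β))) (ae P)) →
        ∃ c : ℝ, 0 < c ∧
          Tendsto (fun β : ℝ => Real.log (-p β) * β ^ 2) (nhdsWithin 0 (Set.Ioi 0)) (nhds (-c))) := by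
  intro H
  obtain ⟨P, hP, p, hlaw, has, hz⟩ := Pool.Agent.helper98.DPZ.exists_model
  obtain ⟨c, hc, hlim⟩ := H Pool.Agent.helper98.DPZ.hh
    ⟨1, fun x => by
      rw [abs_of_nonneg (Pool.Agent.helper98.DPZ.hh_nonneg x)]
      exact Pool.Agent.helper98.DPZ.hh_le_one x⟩
    Pool.Agent.helper98.DPZ.hh_neg Pool.Agent.helper98.DPZ.psd_hh Pool.Agent.helper98.DPZ.hh_zero
    Pool.Agent.helper98.DPZ.tendsto_hh
    Pool.Agent.helper98.DPZ.Env P (fun n x w => w n x)
    (fun n x => Pool.Agent.helper98.DPZ.meas_coord n x) hlaw p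
    (fun β _ => by
      filter_upwards [has β] with w hw
      refine hw.congr fun N => ?_
      rw [Pool.Agent.helper98.DPZ.frozen_eq])
  -- the free energy vanishes for small `β`, so the limit is `0`
  have h1 : (fun β : ℝ => Real.log (-p β) * β ^ 2) =ᶠ[nhdsWithin 0 (Set.Ioi 0)] fun _ => 0 := by
    have h2 : Set.Ioo (0:ℝ) (1/100) ∈ nhdsWithin (0:ℝ) (Set.Ioi 0) :=
      Ioo_mem_nhdsGT (by norm_num)
    filter_upwards [h2] with β hβ
    have h3 : p β = 0 := hz β (by
      have h4 : β ^ 2 ≤ (1/100) ^ 2 := pow_le_pow_left₀ hβ.1.le hβ.2.le 2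
      linarith [show ((1:ℝ)/100) ^ 2 ≤ 1 / 4320 by norm_num])
    simp [h3]
  have h5 : Tendsto (fun _ : ℝ => (0:ℝ)) (nhdsWithin 0 (Set.Ioi 0)) (nhds (-c)) :=
    hlim.congr' h1
  have h6 := tendsto_nhds_unique h5 tendsto_const_nhds
  linarith

end Pool.Agent.S19200
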