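import Pool.Statements.S19402
import Pool.Agent.helper55.FP.Final
import Pool.Agent.helper55.FP.Positive
import Pool.Agent.helper55.FP.Decay

set_option autoImplicit false
open MeasureTheory ProbabilityTheory
open Pool Pool.MP_716210_pr

namespace Pool.Agent.S19402

/-- The negation of the preceding statement: For d at least 3 and any law on [0,infinity), with i.i.d. passage times on the edges of Z^d, almost surely every pair of vertices is joined by a lattice path of minimal total passage time. -/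
theorem result :
    ¬ (∀ (d : ℕ), 3 ≤ d →
    ∀ (μ : Measure ℝ), IsProbabilityMeasure μ → μ (Set.Iio (0 : ℝ)) = 0 →
    ∀ (Ω : Type) [MeasurableSpace Ω] (P : Measure Ω), IsProbabilityMeasure P →
    ∀ (X : (Fin d → ℤ) × Fin d → Ω → ℝ),
      (∀ e, Measurable (X e)) →
      iIndepFun X P →
      (∀ e, Measure.map (X e) P = μ) →
      ∀ᵐ ω ∂P, ∀ x y : Fin d → ℤ,
        ∃ (n : ℕ) (p : Fin (n + 1) → Fin d → ℤ) (e : Fin n → (Fin d → ℤ) × Fin d),
          p 0 = x ∧ p (Fin.last n) = y ∧
          (∀ i : Fin n,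
            (p (Fin.castSucc i) = (e i).1 ∧
              p (Fin.succ i) = (e i).1 + (Pi.single (e i).2 (1 : ℤ) : Fin d → ℤ)) ∨
            (p (Fin.succ i) = (e i).1 ∧
              p (Fin.castSucc i) = (e i).1 + (Pi.single (e i).2 (1 : ℤ) : Fin d → ℤ))) ∧
          ∀ (m : ℕ) (q : Fin (m + 1) → Fin d → ℤ) (f : Fin m → (Fin d → ℤ) × Fin d),
            q 0 = x → q (Fin.last m) = y →
            (∀ i : Fin m,
              (q (Fin.castSucc i) = (f i).1 ∧
                q (Fin.succ i) = (f i).1 + (Pi.single (f i).2 (1 : ℤ) : Fin d → ℤ)) ∨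
              (q (Fin.succ i) = (f i).1 ∧
                q (Fin.castSucc i) = (f i).1 + (Pi.single (f i).2 (1 : ℤ) : Fin d → ℤ))) →
            ∑ i : Fin n, X (e i) ω ≤ ∑ i : Fin m, X (f i) ω) := by
  obtain ⟨d, hd3, pc, hHD⟩ := Pool.Agent.helper55.FP.exists_HD
    (4 * (49000 * Pool.Agent.helper55.FP.KK ^ 2 + 10 * Pool.Agent.helper55.FP.KK))
  obtain ⟨pl, M, N, r, x, y, hpl, hM, hN, hpos⟩ :=
    Pool.Agent.helper55.FP.good_pair_pos le_rfl (by omega) hHD
  exact Pool.Agent.helper55.FP.not_geodesic hpl hM hN hd3 hpos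


end Pool.Agent.S19402
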